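import Mathlib

/-!
Schwarz type lemma with approximate zeros.
-/

namespace Pool.Agent.H43.Sing

open Finset Metric

/-- exact zeros can be divided out -/
lemma exists_div_zeros {c : ℂ} {R : ℝ} (s : Finset ℂ) (hs : ∀ w ∈ s, w ∈ ball c R) :
    ∀ F : ℂ → ℂ, DifferentiableOn ℂ F (ball c R) → (∀ w ∈ s, F w = 0) →
      ∃ H : ℂ → ℂ, DifferentiableOn ℂ H (ball c R) ∧
        ∀ w, F w = (∏ a ∈ s, (w - a)) * H w := by
  classical
  induction s using Finset.induction_on with
  | empty =>
    intro F hF _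
    exact ⟨F, hF, by simp⟩
  | insert a s ha ih =>
    intro F hF h0
    have haR : a ∈ ball c R := hs a (Finset.mem_insert_self _ _)
    have hF1 : DifferentiableOn ℂ (dslope F a) (ball c R) :=
      (Complex.differentiableOn_dslope (isOpen_ball.mem_nhds haR)).2 hF
    have hFa : F a = 0 := h0 a (Finset.mem_insert_self _ _)
    have hF1e : ∀ w, F w = (w - a) * dslope F a w := by
      intro w
      have := sub_smul_dslope F a w
      rw [smul_eq_mul, hFa, sub_zero] at this
      exact this.symm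
    obtain ⟨H, hH, hH2⟩ := ih (fun w hw => hs w (Finset.mem_insert_of_mem hw))
      (dslope F a) hF1 (by
        intro w hw
        have hwa : w - a ≠ 0 := by
          intro h
          apply ha
          rw [← sub_eq_zero.1 h]
          exact hw
        have h1 := hF1e w
        rw [h0 w (Finset.mem_insert_of_mem hw)] at h1
        exact (mul_eq_zero.1 h1.symm).resolve_left hwa)
    refine ⟨H, hH, ?_⟩
    intro w
    rw [Finset.prod_insert ha, hF1e w, hH2 w]
    ring

lemma schwarz_zeros {c : ℂ} {r d B : ℝ} (hr : 0 < r) (hd : d ≤ r / 4) {F : ℂ → ℂ}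
    (hF : DifferentiableOn ℂ F (ball c (2 * r))) (s : Finset ℂ) (hs : ∀ w ∈ s, dist w c ≤ d)
    (h0 : ∀ w ∈ s, F w = 0) (hB : ∀ w, dist w c ≤ r → ‖F w‖ ≤ B) (w : ℂ) (hw : dist w c ≤ d) :
    ‖F w‖ ≤ B * (4 * d / r) ^ s.card := by
  have hd0 : 0 ≤ d := dist_nonneg.trans hw
  have hB0 : 0 ≤ B := (norm_nonneg _).trans (hB c (by simp [hr.le]))
  obtain ⟨H, hH, hH2⟩ := exists_div_zeros s (c := c) (R := 2 * r) (by
    intro w hw
    rw [mem_ball]
    have := hs w hw
    linarith) F hF h0
  -- bound on the sphere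
  have hsph : ∀ z ∈ frontier (ball c r), ‖H z‖ ≤ B / (r / 2) ^ s.card := by
    intro z hz
    rw [frontier_ball c hr.ne', mem_sphere] at hz
    have h1 : (r / 2) ^ s.card ≤ ∏ a ∈ s, ‖z - a‖ := by
      rw [← Finset.prod_const]
      apply Finset.prod_le_prod
      · intro i _; positivity
      · intro a ha
        have h2 := hs a ha
        have h3 : dist z c ≤ dist z a + dist a c := dist_triangle _ _ _
        rw [dist_eq_norm z a] at h3
        linarith
    have h2 : ‖F z‖ ≤ B := hB z hz.le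
    rw [hH2 z, norm_mul, norm_prod] at h2
    rw [le_div_iff₀ (by positivity)]
    calc ‖H z‖ * (r / 2) ^ s.card ≤ ‖H z‖ * ∏ a ∈ s, ‖z - a‖ := by gcongr
      _ ≤ B := by linarith
  have hHd : DiffContOnCl ℂ H (ball c r) := by
    apply DifferentiableOn.diffContOnCl
    rw [closure_ball c hr.ne']
    exact hH.mono (closedBall_subset_ball (by linarith))
  have hHw : ‖H w‖ ≤ B / (r / 2) ^ s.card := by
    apply Complex.norm_le_of_forall_mem_frontier_norm_le isBounded_ball hHd hsph
    rw [closure_ball c hr.ne', mem_closedBall]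
    linarith
  rw [hH2 w, norm_mul, norm_prod]
  have h1 : ∏ a ∈ s, ‖w - a‖ ≤ (2 * d) ^ s.card := by
    rw [← Finset.prod_const]
    apply Finset.prod_le_prod
    · intro i _; positivity
    · intro a ha
      have h2 := hs a ha
      have h3 : dist w a ≤ dist w c + dist a c := dist_triangle_right _ _ _
      rw [dist_eq_norm w a] at h3
      linarith
  calc (∏ a ∈ s, ‖w - a‖) * ‖H w‖ ≤ (2 * d) ^ s.card * (B / (r / 2) ^ s.card) := by
        gcongr
    _ = B * (4 * d / r) ^ s.card := by
        rw [mul_div_assoc', mul_comm ((2 * d) ^ s.card) B, mul_div_assoc, ← div_pow]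
        congr 2
        field_simp
        ring

/-- Lagrange interpolation of small values is small -/
lemma lagrange_small {c : ℂ} {r d ε σ : ℝ} (hr : 0 < r) (hd : d ≤ r) (hε : 0 ≤ ε) (hσ : 0 < σ)
    (s : Finset ℂ) (hs : ∀ w ∈ s, dist w c ≤ d) (hsep : ∀ a ∈ s, ∀ b ∈ s, a ≠ b → σ ≤ dist a b)
    (hσr : σ ≤ 2 * r) (v : ℂ → ℂ) (hv : ∀ w ∈ s, ‖v w‖ ≤ ε) :
    ∃ Q : Polynomial ℂ, (∀ w ∈ s, Q.eval w = v w) ∧
      ∀ w, dist w c ≤ r → ‖Q.eval w‖ ≤ s.card * ε * (2 * r / σ) ^ s.card := by
  classical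
  have hinj : Set.InjOn (fun x : ℂ => x) (s : Set ℂ) := fun a _ b _ h => h
  refine ⟨Lagrange.interpolate s (fun x : ℂ => x) v, ?_, ?_⟩
  · intro w hw
    exact Lagrange.eval_interpolate_at_node v hinj hw
  · intro w hw
    rw [Lagrange.interpolate_apply, Polynomial.eval_finsetSum]
    refine (norm_sum_le _ _).trans ?_
    have h1 : ∀ i ∈ s, ‖Polynomial.eval w (Polynomial.C (v i) * Lagrange.basis s (fun x : ℂ => x) i)‖
        ≤ ε * (2 * r / σ) ^ s.card := by
      intro i hi
      rw [Polynomial.eval_mul, Polynomial.eval_C, norm_mul]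
      have hle1 : 1 ≤ 2 * r / σ := by rw [le_div_iff₀ hσ]; linarith
      have h2 : ‖Polynomial.eval w (Lagrange.basis s (fun x : ℂ => x) i)‖
          ≤ (2 * r / σ) ^ s.card := by
        rw [Lagrange.basis, Polynomial.eval_prod, norm_prod]
        calc ∏ j ∈ s.erase i, ‖Polynomial.eval w (Lagrange.basisDivisor i j)‖
            ≤ ∏ j ∈ s.erase i, (2 * r / σ) := by
              apply Finset.prod_le_prod
              · intro j _; exact norm_nonneg _
              · intro j hj
                obtain ⟨hji, hjs⟩ := Finset.mem_erase.1 hj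
                rw [Lagrange.basisDivisor, Polynomial.eval_mul, Polynomial.eval_C,
                  Polynomial.eval_sub, Polynomial.eval_X, Polynomial.eval_C, norm_mul, norm_inv]
                have h3 := hsep i hi j hjs (Ne.symm hji)
                rw [dist_eq_norm] at h3
                have h4 : ‖w - j‖ ≤ 2 * r := by
                  have h5 : dist w j ≤ dist w c + dist j c := dist_triangle_right _ _ _
                  have h6 := hs j hjs
                  rw [dist_eq_norm w j] at h5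
                  linarith
                rw [mul_comm, ← div_eq_mul_inv]
                apply div_le_div₀ (by linarith) h4 hσ h3
          _ = (2 * r / σ) ^ (s.erase i).card := Finset.prod_const _
          _ ≤ (2 * r / σ) ^ s.card := pow_le_pow_right₀ hle1 (Finset.card_le_card (Finset.erase_subset _ _))
      exact mul_le_mul (hv i hi) h2 (norm_nonneg _) hε
    refine (Finset.sum_le_sum h1).trans ?_
    rw [Finset.sum_const, nsmul_eq_mul]
    linarith

/-- Schwarz lemma with approximate zeros. -/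
theorem schwarz_approx {c : ℂ} {r d B ε σ : ℝ} (hr : 0 < r) (hd : d ≤ r / 4) {G : ℂ → ℂ}
    (hG : DifferentiableOn ℂ G (ball c (2 * r))) (s : Finset ℂ) (hs : ∀ w ∈ s, dist w c ≤ d)
    (hε : 0 ≤ ε) (hσ : 0 < σ) (hσr : σ ≤ 2 * r)
    (hsep : ∀ a ∈ s, ∀ b ∈ s, a ≠ b → σ ≤ dist a b) (h0 : ∀ w ∈ s, ‖G w‖ ≤ ε)
    (hB : ∀ w, dist w c ≤ r → ‖G w‖ ≤ B) (w : ℂ) (hw : dist w c ≤ d) :
    ‖G w‖ ≤ (B + s.card * ε * (2 * r / σ) ^ s.card) * (4 * d / r) ^ s.card
      + s.card * ε * (2 * r / σ) ^ s.card := by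
  obtain ⟨Q, hQ1, hQ2⟩ := lagrange_small hr (by linarith : d ≤ r) hε hσ s hs hsep hσr G h0
  set E : ℝ := s.card * ε * (2 * r / σ) ^ s.card with hE
  have hF : DifferentiableOn ℂ (fun z => G z - Q.eval z) (ball c (2 * r)) :=
    hG.sub Q.differentiable.differentiableOn
  have h1 := schwarz_zeros (B := B + E) hr hd hF s hs (by
    intro z hz; simp only [hQ1 z hz, sub_self]) (by
    intro z hz
    refine (norm_sub_le _ _).trans ?_
    exact add_le_add (hB z hz) (hQ2 z hz)) w hw
  have h2 := hQ2 w (by linarith)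
  calc ‖G w‖ = ‖(G w - Q.eval w) + Q.eval w‖ := by rw [sub_add_cancel]
    _ ≤ ‖G w - Q.eval w‖ + ‖Q.eval w‖ := norm_add_le _ _
    _ ≤ _ := add_le_add h1 h2

end Pool.Agent.H43.Sing
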