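import Pool.Agent.H43.Sing.Trans
import Pool.Agent.H43.Sing.Schw

/-!
# Singmaster, centre region `log t ≤ c m`: statements of the modules

`w = m / n`.  All statements are local at a point `x0` of `(0,1)`.
-/

namespace Pool.Agent.H43.Sing

open Metric

/-- (helper43, Iter.lean) an analytic function through the points of the curve
`log (n choose m) = L`, in the variable `w = m / n`.  `R` and `C0` do not depend on `A`. -/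
def CIterSt : Prop := ∀ x0 : ℝ, 0 < x0 → x0 < 1 → ∃ R C0 : ℝ, 0 < R ∧ R ≤ x0 / 2 ∧
  R ≤ (1 - x0) / 2 ∧ 1 ≤ C0 ∧ ∀ A : ℕ, ∃ C L0 : ℝ, 0 ≤ C ∧ 1 ≤ L0 ∧ ∀ L : ℝ, L0 ≤ L →
    ∃ N : ℂ → ℂ, DifferentiableOn ℂ N (ball (x0 : ℂ) R) ∧
      (∀ w ∈ ball (x0 : ℂ) R, ‖N w‖ ≤ C0 * L) ∧
      (∀ x : ℝ, |x - x0| < R →
        ‖N (x : ℂ) / (L : ℂ) - ((1 / hR x : ℝ) : ℂ)‖ ≤ C * (1 + Real.log L) / L) ∧
      ∀ m n : ℕ, 1 ≤ m → m < n → |(m : ℝ) / n - x0| < R → Real.log (n.choose m : ℝ) = L →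
        ‖N (((m : ℝ) / n : ℝ) : ℂ) - (n : ℂ)‖ ≤ C / L ^ A ∧ (n : ℝ) ≤ C0 * L

/-- `S` is a set of solutions `(m, n)` of `n.choose m = t` with `|m / n - c| ≤ d`. -/
def IsSolSet (t : ℕ) (c d : ℝ) (S : Finset (ℕ × ℕ)) : Prop :=
  ∀ q ∈ S, 1 ≤ q.1 ∧ q.1 < q.2 ∧ q.2.choose q.1 = t ∧ |(q.1 : ℝ) / q.2 - c| ≤ d

/-- (Win.lean) all solutions of a window of length `L ^ (-η)` near `x0` are zeros of one
nonzero integer polynomial of bidegree `< I`. -/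
def CWinSt : Prop := ∀ x0 η : ℝ, 0 < x0 → x0 < 1 → 0 < η → ∃ (I : ℕ) (r L0 : ℝ), 0 < r ∧ 1 ≤ L0 ∧
  ∀ (t : ℕ) (c : ℝ) (S : Finset (ℕ × ℕ)), L0 ≤ Real.log t → |c - x0| ≤ r →
    IsSolSet t c (Real.log t ^ (-η)) S →
    ∃ p : Fin I × Fin I → ℤ, p ≠ 0 ∧ ∀ q ∈ S,
      ∑ u : Fin I × Fin I, p u * (q.1 : ℤ) ^ (u.1 : ℕ) * (q.2 : ℤ) ^ (u.2 : ℕ) = 0

/-- (Zero.lean) zero estimate: a nonzero real polynomial of bidegree `< I` has at most `K` zeros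
among the solutions near `x0`. -/
def CZeroSt : Prop := ∀ (x0 : ℝ) (I : ℕ), 0 < x0 → x0 < 1 → ∃ (K : ℕ) (r L0 : ℝ), 0 < r ∧ 1 ≤ L0 ∧
  ∀ (t : ℕ) (S : Finset (ℕ × ℕ)) (p : Fin I × Fin I → ℝ), L0 ≤ Real.log t → p ≠ 0 →
    IsSolSet t x0 r S →
    (∀ q ∈ S, ∑ u : Fin I × Fin I, p u * (q.1 : ℝ) ^ (u.1 : ℕ) * (q.2 : ℝ) ^ (u.2 : ℕ) = 0) →
    S.card ≤ K

/-- (Loc.lean) local count. -/
def CLocSt : Prop := ∀ x0 η : ℝ, 0 < x0 → x0 < 1 → 0 < η → ∃ r C L0 : ℝ, 0 < r ∧ 0 ≤ C ∧ 1 ≤ L0 ∧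
  ∀ (t : ℕ) (S : Finset (ℕ × ℕ)), L0 ≤ Real.log t → IsSolSet t x0 r S →
    (S.card : ℝ) ≤ C * Real.log t ^ η

/-- (Center.lean) the number of solutions with `log t ≤ c m` (= `Pool.Agent.H86.SM.CenterSt`). -/
def CCenterSt : Prop := ∀ c η : ℝ, 0 < c → 0 < η → ∃ C : ℝ, ∀ (t : ℕ) (S : Finset ℕ), 2 ≤ t →
  (∀ m ∈ S, 1 ≤ m ∧ (∃ n : ℕ, 2 * m ≤ n ∧ n.choose m = t) ∧ Real.log t ≤ c * m) →
  (S.card : ℝ) ≤ C * Real.log t ^ η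

/-!
## Modules

* `Win.lean`: `theorem win (H : CIterSt) : CWinSt`.  With `R, C0` from `H` take `r = R / 4`,
  `I` even with `I ≥ 10 / η`, `U = I ^ 2 / 2`, `A = 4 I + 2 U + 10`.  If `S.card ≤ U` apply
  Siegel's lemma (`Int.Matrix.exists_ne_zero_int_vec_norm_le` or
  `Int.Matrix.exists_ne_zero_int_vec_norm_le'`) to all of `S` (only `p ≠ 0` is needed).  Otherwise
  take `S' ⊆ S`, `S'.card = U`: Siegel gives `p ≠ 0`, `‖p‖ ≤ I² (C0 L)^(2I)`, vanishing at `S'`.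
  `G(w) = ∑ p_ij w^i N(w)^(i+j)` on the ball with centre `c` and radius `R / 2`
  (`schwarz_approx` with `2 r = R / 2`): `B ≤ I^4 (C0 L)^(4I)`.  At the nodes `w_q = m / n`:
  `|G(w_q) - P(m,n)| ≤ I^2 ‖p‖ 2I (2 C0 L)^(2I) C / L^A =: ε` (`m = w_q n`).  Nodes are separated:
  `σ = 1 / (C0 L)²` (if `m/n = m'/n'` then `|n - n'| ≤ 2 C / L^A < 1`, so `n = n'`).
  `(4 d / r)^U ≤ const * L^(-η U)`, `η U ≥ 5 I`.  So `|P(m,n)| < 1` for `L` large.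
* `Zero.lean`: `theorem zero (H : CIterSt) : CZeroSt`.  `q_ij = p_ij L^(i+j)`, normalised
  `‖q‖ = 1`; `r = R / 24`; `gq_lower` on `[x0 - r, x0 + r]` gives `δ`, depending only on `I, R, x0`.
  `G(w) = ∑ q_ij w^i (N(w)/L)^(i+j)`, `‖G‖ ≤ B = I² C0^(2I)`, choose `V` with
  `B 3^(-V) ≤ δ / 8` (independent of `A`), then `A = 2 V + 2`, `K = V`.  If `S.card > V`
  choose `S'` with `S'.card = V`; nodes: `‖G(w_q)‖ ≤ ε = I² 2I C0^(2I) C / L^(A+1)`,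
  `σ = 1 / (C0 L)²`; `schwarz_approx` with centre `x0`, radius parameter `R / 2`, `d = R / 24`
  gives `‖G‖ ≤ δ / 4` on `[x0 - r, x0 + r]` for `L` large; but `‖G(x) - gq I q x‖ ≤ δ / 4`
  (third item of `CIterSt`) and `|gq I q x| ≥ δ` at some `x`.
* `Loc.lean`: `theorem loc (W : CWinSt) (Z : CZeroSt) : CLocSt`.  Cover `|w - x0| ≤ r` by
  `≤ (2 r + 2) L^η` windows `|w - c_k| ≤ L^(-η)`; each has `≤ K` solutions.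
* `Center.lean`: `theorem center_of (H : CLocSt) : CCenterSt`.  Compactness of `[e^(-c), 1/2]`:
  `(n/m)^m ≤ C(n,m) = t` gives `m / n ≥ e^(-c)`; small `L`: `2^m ≤ C(n,m)`, so `m ≤ 2 log t`.
-/

end Pool.Agent.H43.Sing
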