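import Pool.Agent.H43.Sing.CSt
import Pool.Agent.H84.Sing.Jarnik

/-! Compactness: from the local count to the centre region. -/

namespace Pool.Agent.H43.Sing

open Metric Filter Topology

/-- the count for the solutions with `m / n ∈ s` -/
def CntOn (η : ℝ) (s : Set ℝ) : Prop := ∃ C L0 : ℝ, 0 ≤ C ∧ 1 ≤ L0 ∧
  ∀ (t : ℕ) (S : Finset (ℕ × ℕ)), L0 ≤ Real.log t →
    (∀ q ∈ S, 1 ≤ q.1 ∧ q.1 < q.2 ∧ q.2.choose q.1 = t ∧ (q.1 : ℝ) / q.2 ∈ s) →
    (S.card : ℝ) ≤ C * Real.log t ^ η

lemma cntOn_compact (H : CLocSt) {η : ℝ} (hη : 0 < η) {K : Set ℝ} (hK : IsCompact K)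
    (h01 : K ⊆ Set.Ioo 0 1) : CntOn η K := by
  classical
  refine hK.induction_on (p := CntOn η) ?_ ?_ ?_ ?_
  · refine ⟨0, 1, le_rfl, le_rfl, ?_⟩
    intro t S _ hS
    have : S = ∅ := by
      apply Finset.eq_empty_of_forall_notMem
      intro q hq
      exact (hS q hq).2.2.2
    rw [this]
    simp
  · rintro s s' hss ⟨C, L0, h1, h2, h3⟩
    exact ⟨C, L0, h1, h2, fun t S hL hS => h3 t S hL fun q hq =>
      ⟨(hS q hq).1, (hS q hq).2.1, (hS q hq).2.2.1, hss (hS q hq).2.2.2⟩⟩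
  · rintro s s' ⟨C, L0, h1, h2, h3⟩ ⟨C', L0', h1', h2', h3'⟩
    refine ⟨C + C', max L0 L0', by positivity, h2.trans (le_max_left _ _), ?_⟩
    intro t S hL hS
    have a1 := h3 t (S.filter fun q => (q.1 : ℝ) / q.2 ∈ s) ((le_max_left _ _).trans hL) (by
      intro q hq
      obtain ⟨b1, b2⟩ := Finset.mem_filter.1 hq
      exact ⟨(hS q b1).1, (hS q b1).2.1, (hS q b1).2.2.1, b2⟩)
    have a2 := h3' t (S.filter fun q => ¬ (q.1 : ℝ) / q.2 ∈ s) ((le_max_right _ _).trans hL) (by
      intro q hq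
      obtain ⟨b1, b2⟩ := Finset.mem_filter.1 hq
      exact ⟨(hS q b1).1, (hS q b1).2.1, (hS q b1).2.2.1, (hS q b1).2.2.2.resolve_left b2⟩)
    have a3 : ((S.filter fun q => (q.1 : ℝ) / q.2 ∈ s).card : ℝ)
        + ((S.filter fun q => ¬ (q.1 : ℝ) / q.2 ∈ s).card : ℝ) = S.card := by
      exact_mod_cast Finset.card_filter_add_card_filter_not (s := S) (fun q => (q.1 : ℝ) / q.2 ∈ s)
    rw [← a3, add_mul]
    exact add_le_add a1 a2
  · intro x0 hx0
    obtain ⟨hx1, hx2⟩ := h01 hx0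
    obtain ⟨r, C, L0, hr, hC, hL0, h⟩ := H x0 η hx1 hx2 hη
    refine ⟨{y | |y - x0| ≤ r}, ?_, C, L0, hC, hL0, ?_⟩
    · apply mem_nhdsWithin_of_mem_nhds
      have : closedBall x0 r ∈ 𝓝 x0 := closedBall_mem_nhds x0 hr
      refine mem_of_superset this ?_
      intro y hy
      rwa [mem_closedBall, Real.dist_eq] at hy
    · intro t S hL hS
      exact h t S hL (fun q hq => ⟨(hS q hq).1, (hS q hq).2.1, (hS q hq).2.2.1, (hS q hq).2.2.2⟩)

/-- **Module Center**. -/
theorem center_of (H : CLocSt) : CCenterSt := by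
  classical
  intro c η hc hη
  have hK : CntOn η (Set.Icc (Real.exp (-c)) (1 / 2)) := by
    apply cntOn_compact H hη isCompact_Icc
    intro x hx
    exact ⟨lt_of_lt_of_le (Real.exp_pos _) hx.1, lt_of_le_of_lt hx.2 (by norm_num)⟩
  obtain ⟨C, L0, hC, hL0, h⟩ := hK
  have hlog2 : 0 < Real.log 2 := Real.log_pos (by norm_num)
  refine ⟨max C ((2 * L0 + 1) / Real.log 2 ^ η), ?_⟩
  intro t S ht hS
  have htR : (2 : ℝ) ≤ t := by exact_mod_cast ht
  have hlt : Real.log 2 ≤ Real.log t := Real.log_le_log (by norm_num) htR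
  have hltp : 0 < Real.log t := lt_of_lt_of_le hlog2 hlt
  have hpw : 0 < Real.log t ^ η := Real.rpow_pos_of_pos hltp η
  by_cases hL : L0 ≤ Real.log t
  · -- the large case
    choose! ν hν using fun m (hm : m ∈ S) => (hS m hm).2.1
    have hinj : Set.InjOn (fun m : ℕ => (m, ν m)) (S : Set ℕ) := by
      intro a _ b _ hab
      exact (Prod.mk.inj hab).1
    have hcard : (S.image (fun m : ℕ => (m, ν m))).card = S.card := Finset.card_image_of_injOn hinj
    have := h t (S.image (fun m : ℕ => (m, ν m))) hL (by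
      intro q hq
      obtain ⟨m, hm, rfl⟩ := Finset.mem_image.1 hq
      obtain ⟨h1, _, h3⟩ := hS m hm
      obtain ⟨h4, h5⟩ := hν m hm
      have hmR : (0 : ℝ) < m := by exact_mod_cast h1
      have hnR : (0 : ℝ) < ν m := by
        have : 0 < ν m := by omega
        exact_mod_cast this
      have h2m : 2 * (m : ℝ) ≤ ν m := by exact_mod_cast h4
      refine ⟨h1, by show m < ν m; omega, h5, ?_, ?_⟩
      · show Real.exp (-c) ≤ (m : ℝ) / ν m
        have hb := H84.Sing.log_bound (ν m) m t h1 h4 h5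
        have h6 : (m : ℝ) * (Real.log (ν m) - Real.log m) ≤ m * c := by linarith
        have h7 := le_of_mul_le_mul_left h6 hmR
        rw [← Real.log_le_log_iff (Real.exp_pos _) (by positivity), Real.log_exp,
          Real.log_div hmR.ne' hnR.ne']
        linarith
      · show (m : ℝ) / ν m ≤ 1 / 2
        rw [div_le_iff₀ hnR]
        linarith)
    rw [hcard] at this
    exact this.trans (mul_le_mul_of_nonneg_right (le_max_left _ _) hpw.le)
  · -- the small case
    push Not at hL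
    have hsub : S ⊆ Finset.range (⌊2 * L0⌋₊ + 1) := by
      intro m hm
      obtain ⟨h1, ⟨n, h4, h5⟩, _⟩ := hS m hm
      have hmR : (0 : ℝ) < m := by exact_mod_cast h1
      have h2m : 2 * (m : ℝ) ≤ n := by exact_mod_cast h4
      have hb := H84.Sing.log_bound n m t h1 h4 h5
      have h6 : Real.log 2 ≤ Real.log n - Real.log m := by
        have : Real.log (2 * m) ≤ Real.log n := Real.log_le_log (by positivity) h2m
        rw [Real.log_mul (by norm_num) hmR.ne'] at this
        linarith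
      have h7 : (m : ℝ) * Real.log 2 ≤ Real.log t := (mul_le_mul_of_nonneg_left h6 hmR.le).trans hb
      have h8 : (1 : ℝ) / 2 ≤ Real.log 2 := by
        have := Real.log_two_gt_d9
        linarith
      have h9 : (m : ℝ) * (1 / 2) ≤ m * Real.log 2 := mul_le_mul_of_nonneg_left h8 hmR.le
      rw [Finset.mem_range, Nat.lt_succ_iff]
      apply Nat.le_floor
      linarith
    have hc1 : S.card ≤ ⌊2 * L0⌋₊ + 1 := by
      have := Finset.card_le_card hsub
      rwa [Finset.card_range] at this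
    have hc2 : (S.card : ℝ) ≤ 2 * L0 + 1 := by
      have h1 : (S.card : ℝ) ≤ (⌊2 * L0⌋₊ : ℝ) + 1 := by exact_mod_cast hc1
      have h2 := Nat.floor_le (show 0 ≤ 2 * L0 by linarith)
      linarith
    have hpw2 : 0 < Real.log 2 ^ η := Real.rpow_pos_of_pos hlog2 η
    have hmono : Real.log 2 ^ η ≤ Real.log t ^ η := Real.rpow_le_rpow hlog2.le hlt hη.le
    calc (S.card : ℝ) ≤ 2 * L0 + 1 := hc2
      _ = (2 * L0 + 1) / Real.log 2 ^ η * Real.log 2 ^ η := by field_simp
      _ ≤ (2 * L0 + 1) / Real.log 2 ^ η * Real.log t ^ η := by gcongr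
      _ ≤ _ := mul_le_mul_of_nonneg_right (le_max_right _ _) hpw.le

end Pool.Agent.H43.Sing
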