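import Mathlib

/-!
Stirling series with any number of terms.
-/

namespace Pool.Agent.H43.Sing

open Polynomial

/-- expansion in powers of `1/k` up to order `n` -/
def AE (n : ℕ) (u : ℕ → ℝ) : Prop :=
  ∃ p : ℝ[X], ∃ C : ℝ, 0 ≤ C ∧ ∀ k : ℕ, 1 ≤ k → |u k - p.eval (1 / (k : ℝ))| ≤ C * (1 / (k : ℝ)) ^ n

lemma inv_mem {k : ℕ} (hk : 1 ≤ k) : 0 < 1 / (k : ℝ) ∧ 1 / (k : ℝ) ≤ 1 := by
  have h : (1 : ℝ) ≤ k := by exact_mod_cast hk
  constructor
  · positivity
  · rw [div_le_one (by linarith)]; exact h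

lemma AE.mono {n m : ℕ} (hnm : m ≤ n) {u : ℕ → ℝ} (h : AE n u) : AE m u := by
  obtain ⟨p, C, hC, hp⟩ := h
  refine ⟨p, C, hC, fun k hk => (hp k hk).trans ?_⟩
  obtain ⟨h1, h2⟩ := inv_mem hk
  exact mul_le_mul_of_nonneg_left (pow_le_pow_of_le_one h1.le h2 hnm) hC

lemma AE.congr {n : ℕ} {u v : ℕ → ℝ} (h : AE n u) (huv : ∀ k, 1 ≤ k → u k = v k) : AE n v := by
  obtain ⟨p, C, hC, hp⟩ := h
  exact ⟨p, C, hC, fun k hk => by rw [← huv k hk]; exact hp k hk⟩

lemma AE_poly (n : ℕ) (p : ℝ[X]) : AE n (fun k => p.eval (1 / (k : ℝ))) :=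
  ⟨p, 0, le_rfl, fun k _ => by simp⟩

lemma AE_const (n : ℕ) (c : ℝ) : AE n (fun _ => c) :=
  (AE_poly n (C c)).congr (by intro k _; simp)

lemma AE_inv (n : ℕ) : AE n (fun k => 1 / (k : ℝ)) :=
  (AE_poly n X).congr (by intro k _; simp)

lemma AE.add {n : ℕ} {u v : ℕ → ℝ} (hu : AE n u) (hv : AE n v) : AE n (fun k => u k + v k) := by
  obtain ⟨p, C, hC, hp⟩ := hu
  obtain ⟨q, D, hD, hq⟩ := hv
  refine ⟨p + q, C + D, by positivity, fun k hk => ?_⟩
  rw [eval_add]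
  have : u k + v k - (eval (1 / (k : ℝ)) p + eval (1 / (k : ℝ)) q)
      = (u k - eval (1 / (k : ℝ)) p) + (v k - eval (1 / (k : ℝ)) q) := by ring
  rw [this]
  refine (abs_add_le _ _).trans ?_
  rw [add_mul]
  exact add_le_add (hp k hk) (hq k hk)

lemma poly_bdd (p : ℝ[X]) : ∃ M : ℝ, 0 ≤ M ∧ ∀ x : ℝ, 0 ≤ x → x ≤ 1 → |p.eval x| ≤ M := by
  have hc : ContinuousOn (fun x : ℝ => p.eval x) (Set.Icc 0 1) := p.continuous.continuousOn
  obtain ⟨M, hM⟩ := isCompact_Icc.exists_bound_of_continuousOn hc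
  refine ⟨max M 0, le_max_right _ _, fun x h0 h1 => ?_⟩
  exact (hM x ⟨h0, h1⟩).trans (le_max_left _ _)

lemma AE.bdd {n : ℕ} {u : ℕ → ℝ} (hu : AE n u) : ∃ M : ℝ, 0 ≤ M ∧ ∀ k : ℕ, 1 ≤ k → |u k| ≤ M := by
  obtain ⟨p, C, hC, hp⟩ := hu
  obtain ⟨M, hM, hp2⟩ := poly_bdd p
  refine ⟨M + C, by positivity, fun k hk => ?_⟩
  obtain ⟨h1, h2⟩ := inv_mem hk
  have h3 := hp k hk
  have h4 := hp2 _ h1.le h2
  have h5 : C * (1 / (k : ℝ)) ^ n ≤ C * 1 :=
    mul_le_mul_of_nonneg_left (pow_le_one₀ h1.le h2) hC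
  calc |u k| = |(u k - p.eval (1 / (k : ℝ))) + p.eval (1 / (k : ℝ))| := by rw [sub_add_cancel]
    _ ≤ _ := abs_add_le _ _
    _ ≤ M + C := by linarith

lemma AE.mul {n : ℕ} {u v : ℕ → ℝ} (hu : AE n u) (hv : AE n v) : AE n (fun k => u k * v k) := by
  obtain ⟨Mu, hMu, hu2⟩ := hu.bdd
  obtain ⟨p, C, hC, hp⟩ := hu
  obtain ⟨q, D, hD, hq⟩ := hv
  obtain ⟨Mq, hMq, hq2⟩ := poly_bdd q
  refine ⟨p * q, C * Mq + Mu * D, by positivity, fun k hk => ?_⟩
  obtain ⟨h1, h2⟩ := inv_mem hk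
  rw [eval_mul]
  set x := 1 / (k : ℝ)
  have : u k * v k - eval x p * eval x q
      = (u k - eval x p) * eval x q + u k * (v k - eval x q) := by ring
  rw [this]
  refine (abs_add_le _ _).trans ?_
  rw [abs_mul, abs_mul]
  have h3 : |u k - eval x p| * |eval x q| ≤ (C * x ^ n) * Mq :=
    mul_le_mul (hp k hk) (hq2 x h1.le h2) (abs_nonneg _) (by positivity)
  have h4 : |u k| * |v k - eval x q| ≤ Mu * (D * x ^ n) :=
    mul_le_mul (hu2 k hk) (hq k hk) (abs_nonneg _) hMu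
  calc _ ≤ (C * x ^ n) * Mq + Mu * (D * x ^ n) := add_le_add h3 h4
    _ = (C * Mq + Mu * D) * x ^ n := by ring

lemma AE.const_mul {n : ℕ} {u : ℕ → ℝ} (c : ℝ) (hu : AE n u) : AE n (fun k => c * u k) :=
  (AE_const n c).mul hu

/-- it suffices to have the bound from some point on -/
lemma AE_of_ge {n : ℕ} {u : ℕ → ℝ} (p : ℝ[X]) (C : ℝ) (hC : 0 ≤ C) (K : ℕ)
    (h : ∀ k : ℕ, K ≤ k → 1 ≤ k → |u k - p.eval (1 / (k : ℝ))| ≤ C * (1 / (k : ℝ)) ^ n) :
    AE n u := by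
  refine ⟨p, C + ∑ k ∈ Finset.range K, |u k - p.eval (1 / (k : ℝ))| * (k : ℝ) ^ n, ?_, ?_⟩
  · positivity
  · intro k hk
    obtain ⟨h1, h2⟩ := inv_mem hk
    have h0 : (0 : ℝ) < k := by exact_mod_cast hk
    by_cases hkK : K ≤ k
    · refine (h k hkK hk).trans ?_
      apply mul_le_mul_of_nonneg_right _ (by positivity)
      have : 0 ≤ ∑ k ∈ Finset.range K, |u k - p.eval (1 / (k : ℝ))| * (k : ℝ) ^ n := by positivity
      linarith
    · have h3 : |u k - p.eval (1 / (k : ℝ))| * (k : ℝ) ^ n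
          ≤ ∑ k ∈ Finset.range K, |u k - p.eval (1 / (k : ℝ))| * (k : ℝ) ^ n :=
        Finset.single_le_sum (f := fun k : ℕ => |u k - p.eval (1 / (k : ℝ))| * (k : ℝ) ^ n)
          (fun i _ => by positivity) (Finset.mem_range.2 (by omega))
      have h4 : (1 / (k : ℝ)) ^ n * (k : ℝ) ^ n = 1 := by
        rw [← mul_pow, one_div_mul_cancel h0.ne', one_pow]
      calc |u k - p.eval (1 / (k : ℝ))|
          = (|u k - p.eval (1 / (k : ℝ))| * (k : ℝ) ^ n) * (1 / (k : ℝ)) ^ n := by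
            rw [mul_assoc, mul_comm ((k : ℝ) ^ n), h4, mul_one]
        _ ≤ (C + ∑ k ∈ Finset.range K, |u k - p.eval (1 / (k : ℝ))| * (k : ℝ) ^ n)
            * (1 / (k : ℝ)) ^ n := by
            apply mul_le_mul_of_nonneg_right _ (by positivity)
            linarith

/-- splitting off the constant term -/
lemma AE.split {n : ℕ} {E : ℕ → ℝ} (h : AE (n + 1) E) :
    ∃ e : ℝ, ∃ E' : ℕ → ℝ, AE n E' ∧ ∀ k, 1 ≤ k → E k = e + (1 / (k : ℝ)) * E' k := by
  obtain ⟨p, C, hC, hp⟩ := h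
  refine ⟨p.coeff 0, fun k => (k : ℝ) * (E k - p.coeff 0), ⟨p.divX, C, hC, ?_⟩, ?_⟩
  · intro k hk
    have h0 : (0 : ℝ) < k := by exact_mod_cast hk
    have h1 : p.eval (1 / (k : ℝ)) = p.divX.eval (1 / (k : ℝ)) * (1 / (k : ℝ)) + p.coeff 0 := by
      conv_lhs => rw [← divX_mul_X_add p]
      simp only [eval_add, eval_mul, eval_X, eval_C]
    have h2 : (k : ℝ) * (E k - p.coeff 0) - p.divX.eval (1 / (k : ℝ))
        = (k : ℝ) * (E k - p.eval (1 / (k : ℝ))) := by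
      rw [h1]; field_simp; ring
    rw [h2, abs_mul, abs_of_pos h0]
    calc (k : ℝ) * |E k - p.eval (1 / (k : ℝ))| ≤ k * (C * (1 / (k : ℝ)) ^ (n + 1)) :=
          mul_le_mul_of_nonneg_left (hp k hk) h0.le
      _ = C * (1 / (k : ℝ)) ^ n := by rw [pow_succ]; field_simp
  · intro k hk
    have h0 : (0 : ℝ) < k := by exact_mod_cast hk
    field_simp
    ring

/-- `1/(1+1/k)` -/
lemma AE_I (n : ℕ) : AE n (fun k => 1 / (1 + 1 / (k : ℝ))) := by
  refine ⟨∑ i ∈ Finset.range n, (-X) ^ i, 1, zero_le_one, fun k hk => ?_⟩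
  obtain ⟨h1, h2⟩ := inv_mem hk
  set x := 1 / (k : ℝ)
  have h3 : eval x (∑ i ∈ Finset.range n, (-X : ℝ[X]) ^ i) = ∑ i ∈ Finset.range n, (-x) ^ i := by
    rw [eval_finsetSum]; simp
  have h4 : (∑ i ∈ Finset.range n, (-x) ^ i) * (1 + x) = 1 - (-x) ^ n := by
    have := mul_neg_geom_sum (-x) n
    rw [← this]; ring
  have h5 : 1 / (1 + x) - ∑ i ∈ Finset.range n, (-x) ^ i = (-x) ^ n / (1 + x) := by
    have : (1 + x) ≠ 0 := by positivity
    field_simp
    rw [mul_comm (1 + x), h4]; ring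
  rw [h3, h5, abs_div, abs_pow, abs_neg, abs_of_pos h1, abs_of_pos (by linarith : 0 < 1 + x), one_mul]
  exact div_le_self (by positivity) (by linarith)

/-- `(1+x)^(-p) = 1 - p x + x² R_p` -/
lemma AE_R (n p : ℕ) : ∃ R : ℕ → ℝ, AE n R ∧ ∀ k : ℕ, 1 ≤ k →
    (1 / (1 + 1 / (k : ℝ))) ^ p = 1 - p * (1 / (k : ℝ)) + (1 / (k : ℝ)) ^ 2 * R k := by
  induction p with
  | zero => exact ⟨fun _ => 0, AE_const n 0, fun k _ => by simp⟩
  | succ p ih =>
    obtain ⟨R, hR, hR2⟩ := ih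
    refine ⟨fun k => p + (1 + (-(p : ℝ)) * (1 / (k : ℝ))) * (1 / (1 + 1 / (k : ℝ)))
      + R k * (1 / (1 + 1 / (k : ℝ))), ?_, ?_⟩
    · exact ((AE_const n p).add (((AE_const n 1).add ((AE_inv n).const_mul _)).mul (AE_I n))).add
        (hR.mul (AE_I n))
    · intro k hk
      obtain ⟨h1, h2⟩ := inv_mem hk
      rw [pow_succ, hR2 k hk]
      beta_reduce
      generalize 1 / (k : ℝ) = x at h1 h2
      have : (1 + x) ≠ 0 := by positivity
      push_cast
      field_simp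
      ring

/-- `log (1+x) = x - x²/2 + x³ S` -/
lemma AE_log (n : ℕ) : ∃ S : ℕ → ℝ, AE n S ∧ ∀ k : ℕ, 1 ≤ k →
    Real.log (1 + 1 / (k : ℝ)) = 1 / (k : ℝ) - (1 / (k : ℝ)) ^ 2 / 2 + (1 / (k : ℝ)) ^ 3 * S k := by
  refine ⟨fun k => (Real.log (1 + 1 / (k : ℝ)) - 1 / (k : ℝ) + (1 / (k : ℝ)) ^ 2 / 2) * (k : ℝ) ^ 3,
    ?_, ?_⟩
  · apply AE_of_ge (-∑ i ∈ Finset.range n, C (((-1 : ℝ)) ^ (i + 3) / (i + 3)) * X ^ i) 2
      (by norm_num) 2
    intro k hk2 hk
    obtain ⟨h1, h2⟩ := inv_mem hk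
    have h0 : (0 : ℝ) < k := by exact_mod_cast hk
    have hx2 : 1 / (k : ℝ) ≤ 1 / 2 := by
      apply one_div_le_one_div_of_le (by norm_num)
      exact_mod_cast hk2
    set x := 1 / (k : ℝ) with hx
    have hk3 : (k : ℝ) = 1 / x := by rw [hx, one_div_one_div]
    have h3 := Real.abs_log_sub_add_sum_range_le (x := -x) (by
      rw [abs_neg, abs_of_pos h1]; linarith) (n + 2)
    rw [sub_neg_eq_add, abs_neg, abs_of_pos h1, Finset.sum_range_succ', Finset.sum_range_succ'] at h3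
    have h4 : eval x (-∑ i ∈ Finset.range n, C (((-1 : ℝ)) ^ (i + 3) / (i + 3)) * X ^ i)
        = -∑ i ∈ Finset.range n, ((-1 : ℝ)) ^ (i + 3) / (i + 3) * x ^ i := by
      rw [eval_neg, eval_finsetSum]; simp
    rw [h4]
    have h5 : (∑ i ∈ Finset.range n, (-x) ^ (i + 1 + 1 + 1) / ((i + 1 + 1 : ℕ) + 1 : ℝ))
        = x ^ 3 * ∑ i ∈ Finset.range n, ((-1 : ℝ)) ^ (i + 3) / (i + 3) * x ^ i := by
      rw [Finset.mul_sum]
      apply Finset.sum_congr rfl
      intro i _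
      push_cast
      rw [neg_pow]
      ring
    have h6 : (Real.log (1 + x) - x + x ^ 2 / 2) * (k : ℝ) ^ 3
        - -∑ i ∈ Finset.range n, ((-1 : ℝ)) ^ (i + 3) / (i + 3) * x ^ i
        = ((∑ i ∈ Finset.range n, (-x) ^ (i + 1 + 1 + 1) / ((i + 1 + 1 : ℕ) + 1 : ℝ))
          + (-x) ^ (0 + 1 + 1) / ((0 + 1 : ℕ) + 1 : ℝ) + (-x) ^ (0 + 1) / ((0 : ℕ) + 1 : ℝ)
          + Real.log (1 + x)) * (k : ℝ) ^ 3 := by
      rw [h5, hk3]
      have : x ≠ 0 := h1.ne'
      push_cast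
      field_simp
      ring
    rw [h6, abs_mul, abs_of_pos (by positivity : (0 : ℝ) < (k : ℝ) ^ 3)]
    calc _ ≤ x ^ (n + 2 + 1) / (1 - x) * (k : ℝ) ^ 3 :=
          mul_le_mul_of_nonneg_right h3 (by positivity)
      _ ≤ x ^ (n + 3) * 2 * (k : ℝ) ^ 3 := by
          apply mul_le_mul_of_nonneg_right _ (by positivity)
          rw [div_le_iff₀ (by linarith)]
          have : (1 : ℝ) ≤ 2 * (1 - x) := by linarith
          calc x ^ (n + 2 + 1) = x ^ (n + 3) * 1 := by ring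
            _ ≤ x ^ (n + 3) * (2 * (1 - x)) := mul_le_mul_of_nonneg_left this (by positivity)
            _ = x ^ (n + 3) * 2 * (1 - x) := by ring
      _ = 2 * x ^ n := by
          rw [hk3]
          have : x ≠ 0 := h1.ne'
          field_simp
          ring
  · intro k hk
    have h0 : (0 : ℝ) < k := by exact_mod_cast hk
    beta_reduce
    generalize Real.log (1 + 1 / (k : ℝ)) = l
    field_simp
    ring

/-- summation, bottom case -/
lemma AE_sum_base (A : ℕ) (u : ℕ → ℝ) (C : ℝ) (hC : 0 ≤ C)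
    (h : ∀ k, 1 ≤ k → |u (k + 1) - u k| ≤ C * (1 / (k : ℝ)) ^ (A + 2)) : AE (A + 1) u := by
  have key : ∀ k, 1 ≤ k → ∀ n, |u (k + n) - u k|
      ≤ 2 * C * (1 / (k : ℝ)) ^ A * (1 / (k : ℝ) - 1 / ((k + n : ℕ) : ℝ)) := by
    intro k hk n
    have h0 : (0 : ℝ) < k := by exact_mod_cast hk
    induction n with
    | zero => simp
    | succ n ih =>
      have hkn : 1 ≤ k + n := by omega
      have hm : (0 : ℝ) < ((k + n : ℕ) : ℝ) := by exact_mod_cast hkn
      have h1 := h (k + n) hkn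
      have h2 : |u (k + (n + 1)) - u k| ≤ |u (k + n + 1) - u (k + n)| + |u (k + n) - u k| := by
        have : u (k + (n + 1)) - u k = (u (k + n + 1) - u (k + n)) + (u (k + n) - u k) := by
          rw [← add_assoc]; ring
        rw [this]; exact abs_add_le _ _
      have h3 : (1 / ((k + n : ℕ) : ℝ)) ^ (A + 2)
          ≤ (1 / (k : ℝ)) ^ A * (2 * (1 / ((k + n : ℕ) : ℝ) - 1 / ((k + n + 1 : ℕ) : ℝ))) := by
        rw [pow_add]
        apply mul_le_mul
        · apply pow_le_pow_left₀ (by positivity)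
          apply one_div_le_one_div_of_le h0
          push_cast; linarith [(Nat.cast_nonneg n : (0 : ℝ) ≤ n)]
        · have hm1 : (1 : ℝ) ≤ ((k + n : ℕ) : ℝ) := by exact_mod_cast hkn
          have e1 : (((k + n + 1 : ℕ) : ℕ) : ℝ) = ((k + n : ℕ) : ℝ) + 1 := by push_cast; rfl
          rw [e1]
          generalize ((k + n : ℕ) : ℝ) = m at hm1
          have e2 : 2 * (1 / m - 1 / (m + 1)) = 2 / (m * (m + 1)) := by field_simp; ring
          rw [e2, div_pow, one_pow, div_le_div_iff₀ (by positivity) (by positivity)]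
          nlinarith
        · positivity
        · positivity
      have e3 : (((k + (n + 1) : ℕ)) : ℝ) = ((k + n + 1 : ℕ) : ℝ) := by push_cast; ring
      rw [e3]
      calc _ ≤ C * (1 / ((k + n : ℕ) : ℝ)) ^ (A + 2)
            + 2 * C * (1 / (k : ℝ)) ^ A * (1 / (k : ℝ) - 1 / ((k + n : ℕ) : ℝ)) := by linarith
        _ ≤ C * ((1 / (k : ℝ)) ^ A * (2 * (1 / ((k + n : ℕ) : ℝ) - 1 / ((k + n + 1 : ℕ) : ℝ))))
            + 2 * C * (1 / (k : ℝ)) ^ A * (1 / (k : ℝ) - 1 / ((k + n : ℕ) : ℝ)) := by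
            gcongr
        _ = _ := by ring
  have key2 : ∀ k, 1 ≤ k → ∀ m, k ≤ m → |u m - u k| ≤ 2 * C * (1 / (k : ℝ)) ^ (A + 1) := by
    intro k hk m hm
    obtain ⟨n, rfl⟩ := Nat.exists_eq_add_of_le hm
    have h0 : (0 : ℝ) < k := by exact_mod_cast hk
    refine (key k hk n).trans ?_
    rw [pow_succ, ← mul_assoc]
    apply mul_le_mul_of_nonneg_left _ (by positivity)
    have : (0 : ℝ) ≤ 1 / ((k + n : ℕ) : ℝ) := by positivity
    linarith
  have hcau : CauchySeq (fun n => u (n + 1)) := by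
    apply cauchySeq_of_le_tendsto_0 (fun N : ℕ => 4 * C * (1 / ((N : ℝ) + 1)))
    · intro n m N hn hm
      have h1 : ∀ j, N ≤ j → |u (j + 1) - u (N + 1)| ≤ 2 * C * (1 / ((N : ℝ) + 1)) := by
        intro j hj
        refine (key2 (N + 1) (by omega) (j + 1) (by omega)).trans ?_
        push_cast
        rw [pow_succ, ← mul_assoc]
        have hx : (0 : ℝ) ≤ 1 / ((N : ℝ) + 1) := by positivity
        have hx1 : 1 / ((N : ℝ) + 1) ≤ 1 := by
          rw [div_le_one (by positivity)]; linarith [(Nat.cast_nonneg N : (0 : ℝ) ≤ N)]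
        calc 2 * C * (1 / ((N : ℝ) + 1)) ^ A * (1 / ((N : ℝ) + 1))
            ≤ 2 * C * 1 * (1 / ((N : ℝ) + 1)) := by
              gcongr
              exact pow_le_one₀ hx hx1
          _ = _ := by ring
      rw [Real.dist_eq]
      have e : u (n + 1) - u (m + 1) = (u (n + 1) - u (N + 1)) - (u (m + 1) - u (N + 1)) := by ring
      rw [e]
      refine (abs_sub _ _).trans ?_
      have := h1 n hn
      have := h1 m hm
      linarith
    · have := tendsto_one_div_add_atTop_nhds_zero_nat (𝕜 := ℝ)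
      simpa using this.const_mul (4 * C)
  obtain ⟨b, hb⟩ := cauchySeq_tendsto_of_complete hcau
  have hb' : Filter.Tendsto u Filter.atTop (nhds b) := (Filter.tendsto_add_atTop_iff_nat 1).1 hb
  refine ⟨Polynomial.C b, 2 * C, by positivity, fun k hk => ?_⟩
  rw [eval_C]
  have h1 : Filter.Tendsto (fun m => |u k - u m|) Filter.atTop (nhds |u k - b|) :=
    (tendsto_const_nhds.sub hb').abs
  apply le_of_tendsto h1
  filter_upwards [Filter.eventually_ge_atTop k] with m hm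
  rw [abs_sub_comm]
  exact key2 k hk m hm

/-- summation of expansions -/
lemma AE_sum (A : ℕ) : ∀ d s : ℕ, s + d = A + 2 → 2 ≤ s → ∀ u E : ℕ → ℝ, AE d E →
    (∀ k, 1 ≤ k → u (k + 1) - u k = (1 / (k : ℝ)) ^ s * E k) → AE (A + 1) u := by
  intro d
  induction d with
  | zero =>
    intro s hs _ u E hE hu
    obtain ⟨M, hM, hE2⟩ := hE.bdd
    apply AE_sum_base A u M hM
    intro k hk
    obtain ⟨h1, h2⟩ := inv_mem hk
    rw [hu k hk, abs_mul, abs_of_pos (by positivity), mul_comm]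
    have : s = A + 2 := by omega
    rw [this]
    exact mul_le_mul_of_nonneg_right (hE2 k hk) (by positivity)
  | succ d ih =>
    intro s hs hs2 u E hE hu
    obtain ⟨e, E', hE', hEE⟩ := hE.split
    obtain ⟨R, hR, hR2⟩ := AE_R d (s - 1)
    have hs1 : ((s - 1 : ℕ) : ℝ) ≠ 0 := by
      have : 1 ≤ s - 1 := by omega
      have : (1 : ℝ) ≤ ((s - 1 : ℕ) : ℝ) := by exact_mod_cast this
      linarith
    set f : ℝ := e / ((s - 1 : ℕ) : ℝ) with hf
    have hv := ih (s + 1) (by omega) (by omega)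
      (fun k => u k + f * (1 / (k : ℝ)) ^ (s - 1)) (fun k => E' k + f * R k)
      (hE'.add (hR.const_mul f)) (by
        intro k hk
        have h0 : (0 : ℝ) < k := by exact_mod_cast hk
        have e1 : (1 / ((k + 1 : ℕ) : ℝ)) = (1 / (k : ℝ)) * (1 / (1 + 1 / (k : ℝ))) := by
          push_cast; field_simp
        have e2 := hR2 k hk
        have e3 := hu k hk
        rw [hEE k hk] at e3
        rw [e1, mul_pow, e2]
        have e4 : u (k + 1) = u k + (1 / (k : ℝ)) ^ s * (e + 1 / (k : ℝ) * E' k) := by linarith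
        rw [e4]
        obtain ⟨q, rfl⟩ : ∃ q, s = q + 1 := ⟨s - 1, by omega⟩
        simp only [Nat.add_sub_cancel] at hs1 hf ⊢
        have e5 : e = f * (q : ℝ) := by rw [hf]; field_simp
        rw [e5]
        ring)
    have := hv.add (((AE_poly (A + 1) (X ^ (s - 1))).const_mul (-f)))
    exact this.congr (by intro k _; simp)

/-- **Stirling series**. -/
theorem stirling_series (A : ℕ) : ∃ p : ℝ[X], ∃ C : ℝ, 0 ≤ C ∧ ∀ k : ℕ, 1 ≤ k →
    |Real.log (k.factorial : ℝ) - (((k : ℝ) + 1 / 2) * Real.log k - k + p.eval (1 / (k : ℝ)))|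
      ≤ C * (1 / (k : ℝ)) ^ A := by
  obtain ⟨S, hS, hS2⟩ := AE_log A
  have h := AE_sum A A 2 (by omega) le_rfl
    (fun k => Real.log (k.factorial : ℝ) - (((k : ℝ) + 1 / 2) * Real.log k - k))
    (fun k => (1 / 4 + (-1) * S k) + (-1 / 2) * ((1 / (k : ℝ)) * S k))
    (((AE_const A (1 / 4)).add (hS.const_mul (-1))).add (((AE_inv A).mul hS).const_mul (-1 / 2))) (by
      intro k hk
      have h0 : (0 : ℝ) < k := by exact_mod_cast hk
      have e1 : Real.log ((k + 1).factorial : ℝ)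
          = Real.log ((k : ℝ) + 1) + Real.log (k.factorial : ℝ) := by
        rw [Nat.factorial_succ]
        push_cast
        rw [Real.log_mul (by positivity) (by positivity)]
      have e2 : Real.log ((k : ℝ) + 1) = Real.log k + Real.log (1 + 1 / (k : ℝ)) := by
        rw [← Real.log_mul (by positivity) (by positivity)]
        congr 1
        field_simp
      push_cast
      rw [e1, e2, hS2 k hk]
      field_simp
      ring)
  obtain ⟨p, C, hC, hp⟩ := h.mono (Nat.le_succ A)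
  refine ⟨p, C, hC, fun k hk => ?_⟩
  have := hp k hk
  rw [← sub_sub]
  exact this

end Pool.Agent.H43.Sing
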