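import Pool.Agent.H43.Sing.CSt
import Pool.Agent.H43.Sing.Stir

/-!
The analytic function through the points of the level curve `log (n choose m) = L`, in the
variable `w = m / n`.
-/

namespace Pool.Agent.H43.Sing

open Filter Topology Metric

/-- complex binary entropy -/
noncomputable def hC (w : ℂ) : ℂ := -(w * Complex.log w) - (1 - w) * Complex.log (1 - w)

lemma hC_ofReal {x : ℝ} (h0 : 0 ≤ x) (h1 : x ≤ 1) : hC (x : ℂ) = (hR x : ℂ) := by
  have e : (1 : ℂ) - (x : ℂ) = ((1 - x : ℝ) : ℂ) := by push_cast; rfl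
  rw [hC, hR, e, ← Complex.ofReal_log h0, ← Complex.ofReal_log (by linarith)]
  push_cast
  rfl

/-- complexified polynomial -/
noncomputable def PC (p : Polynomial ℝ) (z : ℂ) : ℂ := (p.map (algebraMap ℝ ℂ)).eval z

lemma PC_ofReal (p : Polynomial ℝ) (x : ℝ) : PC p (x : ℂ) = ((p.eval x : ℝ) : ℂ) := by
  rw [PC, Polynomial.eval_map]
  exact Polynomial.eval₂_at_apply (algebraMap ℝ ℂ) x

noncomputable def kap (p : Polynomial ℝ) (N w : ℂ) : ℂ :=
  1 / 2 * Complex.log N + 1 / 2 * Complex.log w + 1 / 2 * Complex.log (1 - w)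
    - (PC p (1 / N) - PC p (1 / (w * N)) - PC p (1 / ((1 - w) * N)))

noncomputable def TL (p : Polynomial ℝ) (L : ℝ) (N w : ℂ) : ℂ := ((L : ℂ) + kap p N w) / hC w

noncomputable def itN (p : Polynomial ℝ) (x0 L : ℝ) : ℕ → ℂ → ℂ
  | 0 => fun _ => ((L / hR x0 : ℝ) : ℂ)
  | k + 1 => fun w => TL p L (itN p x0 L k w) w

/-- the range of the values -/
def Bl (x0 L : ℝ) : Set ℂ := closedBall ((L / hR x0 : ℝ) : ℂ) (L / (2 * hR x0))

lemma Bl_re {x0 L : ℝ} {N : ℂ} (hN : N ∈ Bl x0 L) : L / (2 * hR x0) ≤ N.re := by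
  rw [Bl, mem_closedBall, dist_eq_norm] at hN
  have h1 := (Complex.abs_re_le_norm (N - ((L / hR x0 : ℝ) : ℂ))).trans hN
  rw [Complex.sub_re, Complex.ofReal_re] at h1
  have h2 := (abs_le.1 h1).1
  have h3 : L / hR x0 = L / (2 * hR x0) + L / (2 * hR x0) := by
    by_cases h : hR x0 = 0
    · rw [h]; simp
    · field_simp; ring
  linarith

lemma Bl_norm_ge {x0 L : ℝ} {N : ℂ} (hN : N ∈ Bl x0 L) : L / (2 * hR x0) ≤ ‖N‖ :=
  (Bl_re hN).trans ((le_abs_self _).trans (Complex.abs_re_le_norm N))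

lemma Bl_norm_le {x0 L : ℝ} (h : 0 < hR x0) (hL : 0 ≤ L) {N : ℂ} (hN : N ∈ Bl x0 L) :
    ‖N‖ ≤ 3 * (L / (2 * hR x0)) := by
  rw [Bl, mem_closedBall, dist_eq_norm] at hN
  calc ‖N‖ = ‖(N - ((L / hR x0 : ℝ) : ℂ)) + ((L / hR x0 : ℝ) : ℂ)‖ := by rw [sub_add_cancel]
    _ ≤ ‖N - ((L / hR x0 : ℝ) : ℂ)‖ + ‖((L / hR x0 : ℝ) : ℂ)‖ := norm_add_le _ _
    _ ≤ L / (2 * hR x0) + L / hR x0 := by
        apply add_le_add hN
        rw [Complex.norm_real, Real.norm_of_nonneg (by positivity)]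
    _ = _ := by field_simp; ring

lemma norm_log_le (z : ℂ) : ‖Complex.log z‖ ≤ |Real.log ‖z‖| + Real.pi := by
  refine (Complex.norm_le_abs_re_add_abs_im _).trans ?_
  rw [Complex.log_re, Complex.log_im]
  exact add_le_add le_rfl (Complex.abs_arg_le_pi z)

lemma PC_bdd (p : Polynomial ℝ) (B : ℝ) : ∃ M : ℝ, 0 ≤ M ∧ ∀ z : ℂ, ‖z‖ ≤ B → ‖PC p z‖ ≤ M := by
  have hc : ContinuousOn (fun z : ℂ => PC p z) (closedBall 0 B) :=
    (Polynomial.continuous _).continuousOn
  obtain ⟨M, hM⟩ := (isCompact_closedBall (0 : ℂ) B).exists_bound_of_continuousOn hc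
  exact ⟨max M 0, le_max_right _ _, fun z hz => (hM z (by simpa using hz)).trans (le_max_left _ _)⟩

lemma PC_lip (p : Polynomial ℝ) (B : ℝ) : ∃ K : ℝ, 0 ≤ K ∧ ∀ a b : ℂ, ‖a‖ ≤ B → ‖b‖ ≤ B →
    ‖PC p a - PC p b‖ ≤ K * ‖a - b‖ := by
  set P := p.map (algebraMap ℝ ℂ)
  have hc : ContinuousOn (fun z : ℂ => P.derivative.eval z) (closedBall 0 B) :=
    (Polynomial.continuous _).continuousOn
  obtain ⟨M, hM⟩ := (isCompact_closedBall (0 : ℂ) B).exists_bound_of_continuousOn hc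
  refine ⟨max M 0, le_max_right _ _, fun a b ha hb => ?_⟩
  have := (convex_closedBall (0 : ℂ) B).norm_image_sub_le_of_norm_deriv_le
    (f := fun z => P.eval z) (C := max M 0) (x := b) (y := a)
    (fun z _ => P.differentiable z) (by
      intro z hz
      rw [Polynomial.deriv]
      exact (hM z hz).trans (le_max_left _ _)) (by simpa using hb) (by simpa using ha)
  exact this

/-- the admissible radius -/
structure Good (x0 R : ℝ) : Prop where
  x0_pos : 0 < x0
  x0_lt : x0 < 1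
  R_pos : 0 < R
  R_le : R ≤ x0 / 2
  R_le' : R ≤ (1 - x0) / 2
  h_near : ∀ w : ℂ, dist w x0 ≤ R → ‖hC w - (hR x0 : ℂ)‖ ≤ hR x0 / 8

lemma exists_good {x0 : ℝ} (h0 : 0 < x0) (h1 : x0 < 1) : ∃ R, Good x0 R := by
  have hcont : ContinuousAt hC (x0 : ℂ) := by
    unfold hC
    have e1 : (x0 : ℂ) ∈ Complex.slitPlane := by simp [h0]
    have e2 : (1 : ℂ) - (x0 : ℂ) ∈ Complex.slitPlane := by
      have : (1 : ℂ) - (x0 : ℂ) = ((1 - x0 : ℝ) : ℂ) := by push_cast; rfl
      rw [this]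
      exact Complex.ofReal_mem_slitPlane.2 (by linarith)
    have c1 : ContinuousAt (fun w : ℂ => Complex.log w) (x0 : ℂ) := continuousAt_clog e1
    have c2 : ContinuousAt (fun w : ℂ => Complex.log (1 - w)) (x0 : ℂ) :=
      (continuousAt_const.sub continuousAt_id).clog e2
    exact ((continuousAt_id.mul c1).neg).sub ((continuousAt_const.sub continuousAt_id).mul c2)
  have hpos := hR_pos h0 h1
  rw [Metric.continuousAt_iff] at hcont
  obtain ⟨d, hd, hd2⟩ := hcont (hR x0 / 8) (by positivity)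
  refine ⟨min (d / 2) (min (x0 / 2) ((1 - x0) / 2)), h0, h1, ?_, ?_, ?_, ?_⟩
  · apply lt_min (by positivity)
    apply lt_min (by positivity)
    linarith
  · exact (min_le_right _ _).trans (min_le_left _ _)
  · exact (min_le_right _ _).trans (min_le_right _ _)
  · intro w hw
    have h2 : dist w x0 < d := by
      have := hw.trans (min_le_left _ _)
      linarith
    have := hd2 h2
    rw [hC_ofReal h0.le h1.le, dist_eq_norm] at this
    exact this.le

namespace Good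

variable {x0 R : ℝ} (G : Good x0 R)
include G

lemma hpos : 0 < hR x0 := hR_pos G.x0_pos G.x0_lt

lemma re_ge {w : ℂ} (hw : dist w x0 ≤ R) : x0 / 2 ≤ w.re := by
  rw [dist_eq_norm] at hw
  have h1 := (Complex.abs_re_le_norm (w - (x0 : ℂ))).trans hw
  rw [Complex.sub_re, Complex.ofReal_re] at h1
  have h2 := (abs_le.1 h1).1
  have := G.R_le
  linarith

lemma re_ge' {w : ℂ} (hw : dist w x0 ≤ R) : (1 - x0) / 2 ≤ (1 - w).re := by
  rw [dist_eq_norm] at hw
  have h1 := (Complex.abs_re_le_norm (w - (x0 : ℂ))).trans hw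
  rw [Complex.sub_re, Complex.ofReal_re] at h1
  have h2 := (abs_le.1 h1).2
  have := G.R_le'
  rw [Complex.sub_re, Complex.one_re]
  linarith

lemma slit {w : ℂ} (hw : dist w x0 ≤ R) : w ∈ Complex.slitPlane :=
  Or.inl (lt_of_lt_of_le (by have := G.x0_pos; linarith) (G.re_ge hw))

lemma slit' {w : ℂ} (hw : dist w x0 ≤ R) : 1 - w ∈ Complex.slitPlane :=
  Or.inl (lt_of_lt_of_le (by have := G.x0_lt; linarith) (G.re_ge' hw))

lemma norm_ge {w : ℂ} (hw : dist w x0 ≤ R) : x0 / 2 ≤ ‖w‖ :=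
  (G.re_ge hw).trans ((le_abs_self _).trans (Complex.abs_re_le_norm w))

lemma norm_ge' {w : ℂ} (hw : dist w x0 ≤ R) : (1 - x0) / 2 ≤ ‖1 - w‖ :=
  (G.re_ge' hw).trans ((le_abs_self _).trans (Complex.abs_re_le_norm _))

lemma norm_le {w : ℂ} (hw : dist w x0 ≤ R) : ‖w‖ ≤ 2 := by
  have h1 : ‖w‖ ≤ ‖w - (x0 : ℂ)‖ + ‖(x0 : ℂ)‖ := by
    calc ‖w‖ = ‖(w - (x0 : ℂ)) + (x0 : ℂ)‖ := by rw [sub_add_cancel]
      _ ≤ _ := norm_add_le _ _
  rw [← dist_eq_norm, Complex.norm_real, Real.norm_of_nonneg G.x0_pos.le] at h1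
  have := G.R_le
  have := G.x0_lt
  linarith

lemma norm_le' {w : ℂ} (hw : dist w x0 ≤ R) : ‖1 - w‖ ≤ 3 := by
  have := G.norm_le hw
  calc ‖1 - w‖ ≤ ‖(1 : ℂ)‖ + ‖w‖ := norm_sub_le _ _
    _ ≤ 1 + 2 := by rw [norm_one]; linarith
    _ = 3 := by norm_num

lemma h_norm_ge {w : ℂ} (hw : dist w x0 ≤ R) : hR x0 / 2 ≤ ‖hC w‖ := by
  have h1 := G.h_near w hw
  have hp := G.hpos
  have h2 : ‖(hR x0 : ℂ)‖ ≤ ‖hC w‖ + ‖hC w - (hR x0 : ℂ)‖ := by
    calc ‖(hR x0 : ℂ)‖ = ‖hC w - (hC w - (hR x0 : ℂ))‖ := by rw [sub_sub_cancel]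
      _ ≤ _ := norm_sub_le _ _
  rw [Complex.norm_real, Real.norm_of_nonneg hp.le] at h2
  linarith

lemma h_ne {w : ℂ} (hw : dist w x0 ≤ R) : hC w ≠ 0 := by
  intro h
  have := G.h_norm_ge hw
  rw [h, norm_zero] at this
  have := G.hpos
  linarith

end Good

section bounds

variable {x0 R : ℝ} (G : Good x0 R) (p : Polynomial ℝ)
include G

lemma inv_bounds {L : ℝ} (hL : 1 ≤ L) {w N : ℂ} (hw : dist w x0 ≤ R) (hN : N ∈ Bl x0 L) :
    ‖1 / N‖ ≤ 2 * hR x0 ∧ ‖1 / (w * N)‖ ≤ 2 * hR x0 * (2 / x0) ∧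
      ‖1 / ((1 - w) * N)‖ ≤ 2 * hR x0 * (2 / (1 - x0)) := by
  have hp := G.hpos
  have h0 := G.x0_pos
  have h1 : 0 < 1 - x0 := by have := G.x0_lt; linarith
  have hN1 : 1 / (2 * hR x0) ≤ ‖N‖ := by
    refine le_trans ?_ (Bl_norm_ge hN)
    gcongr
  have e1 : ‖1 / N‖ ≤ 2 * hR x0 := by
    rw [norm_div, norm_one]
    calc 1 / ‖N‖ ≤ 1 / (1 / (2 * hR x0)) := one_div_le_one_div_of_le (by positivity) hN1
      _ = 2 * hR x0 := one_div_one_div _
  have e2 : ‖1 / w‖ ≤ 2 / x0 := by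
    rw [norm_div, norm_one]
    calc 1 / ‖w‖ ≤ 1 / (x0 / 2) := one_div_le_one_div_of_le (by positivity) (G.norm_ge hw)
      _ = 2 / x0 := one_div_div _ _
  have e3 : ‖1 / (1 - w)‖ ≤ 2 / (1 - x0) := by
    rw [norm_div, norm_one]
    calc 1 / ‖1 - w‖ ≤ 1 / ((1 - x0) / 2) := one_div_le_one_div_of_le (by positivity) (G.norm_ge' hw)
      _ = 2 / (1 - x0) := one_div_div _ _
  refine ⟨e1, ?_, ?_⟩
  · have : 1 / (w * N) = (1 / N) * (1 / w) := by rw [one_div_mul_one_div, mul_comm]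
    rw [this, norm_mul]
    exact mul_le_mul e1 e2 (norm_nonneg _) (by positivity)
  · have : 1 / ((1 - w) * N) = (1 / N) * (1 / (1 - w)) := by rw [one_div_mul_one_div, mul_comm]
    rw [this, norm_mul]
    exact mul_le_mul e1 e3 (norm_nonneg _) (by positivity)

/-- bound for `kap` -/
lemma kap_bound : ∃ C1 : ℝ, 0 ≤ C1 ∧ ∀ L : ℝ, 1 ≤ L → ∀ w N : ℂ, dist w x0 ≤ R → N ∈ Bl x0 L →
    ‖kap p N w‖ ≤ Real.log L + C1 := by
  have hp := G.hpos
  have h0 := G.x0_pos
  have h1 : 0 < 1 - x0 := by have := G.x0_lt; linarith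
  obtain ⟨M1, hM1, hP1⟩ := PC_bdd p (2 * hR x0)
  obtain ⟨M2, hM2, hP2⟩ := PC_bdd p (2 * hR x0 * (2 / x0))
  obtain ⟨M3, hM3, hP3⟩ := PC_bdd p (2 * hR x0 * (2 / (1 - x0)))
  -- logs
  set D : ℝ := |Real.log (1 / (2 * hR x0))| + |Real.log (3 / (2 * hR x0))|
    + |Real.log (x0 / 2)| + |Real.log ((1 - x0) / 2)| + Real.log 3 + Real.pi with hD
  have hl3 : 0 ≤ Real.log 3 := Real.log_nonneg (by norm_num)
  have hpi := Real.pi_pos
  refine ⟨2 * D + M1 + M2 + M3, by positivity, ?_⟩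
  intro L hL w N hw hN
  have hLp : 0 < L := by linarith
  have hlogL : 0 ≤ Real.log L := Real.log_nonneg hL
  obtain ⟨i1, i2, i3⟩ := inv_bounds G hL hw hN
  -- log N
  have hNge := Bl_norm_ge hN
  have hNle := Bl_norm_le hp hLp.le hN
  have hNpos : 0 < ‖N‖ := lt_of_lt_of_le (by positivity) hNge
  have l1 : ‖Complex.log N‖ ≤ Real.log L + D := by
    refine (norm_log_le N).trans ?_
    have a1 : Real.log ‖N‖ ≤ Real.log L + Real.log (3 / (2 * hR x0)) := by
      rw [← Real.log_mul (by positivity) (by positivity)]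
      apply Real.log_le_log hNpos
      calc ‖N‖ ≤ 3 * (L / (2 * hR x0)) := hNle
        _ = L * (3 / (2 * hR x0)) := by ring
    have a2 : Real.log L + Real.log (1 / (2 * hR x0)) ≤ Real.log ‖N‖ := by
      rw [← Real.log_mul (by positivity) (by positivity)]
      apply Real.log_le_log (by positivity)
      calc L * (1 / (2 * hR x0)) = L / (2 * hR x0) := by ring
        _ ≤ ‖N‖ := hNge
    have a3 : |Real.log ‖N‖| ≤ Real.log L + |Real.log (1 / (2 * hR x0))|
        + |Real.log (3 / (2 * hR x0))| := by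
      rw [abs_le]
      have := neg_abs_le (Real.log (1 / (2 * hR x0)))
      have := le_abs_self (Real.log (3 / (2 * hR x0)))
      have := abs_nonneg (Real.log (1 / (2 * hR x0)))
      have := abs_nonneg (Real.log (3 / (2 * hR x0)))
      constructor <;> linarith
    have := abs_nonneg (Real.log (x0 / 2))
    have := abs_nonneg (Real.log ((1 - x0) / 2))
    rw [hD]
    linarith
  have l2 : ‖Complex.log w‖ ≤ D := by
    refine (norm_log_le w).trans ?_
    have a1 : Real.log ‖w‖ ≤ Real.log 3 := by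
      apply Real.log_le_log (lt_of_lt_of_le (by positivity) (G.norm_ge hw))
      have := G.norm_le hw; linarith
    have a2 : Real.log (x0 / 2) ≤ Real.log ‖w‖ := Real.log_le_log (by positivity) (G.norm_ge hw)
    have a3 : |Real.log ‖w‖| ≤ |Real.log (x0 / 2)| + Real.log 3 := by
      rw [abs_le]
      have := neg_abs_le (Real.log (x0 / 2))
      have := abs_nonneg (Real.log (x0 / 2))
      constructor <;> linarith
    have := abs_nonneg (Real.log (1 / (2 * hR x0)))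
    have := abs_nonneg (Real.log (3 / (2 * hR x0)))
    have := abs_nonneg (Real.log ((1 - x0) / 2))
    rw [hD]
    linarith
  have l3 : ‖Complex.log (1 - w)‖ ≤ D := by
    refine (norm_log_le _).trans ?_
    have a1 : Real.log ‖1 - w‖ ≤ Real.log 3 := by
      apply Real.log_le_log (lt_of_lt_of_le (by positivity) (G.norm_ge' hw))
      exact G.norm_le' hw
    have a2 : Real.log ((1 - x0) / 2) ≤ Real.log ‖1 - w‖ :=
      Real.log_le_log (by positivity) (G.norm_ge' hw)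
    have a3 : |Real.log ‖1 - w‖| ≤ |Real.log ((1 - x0) / 2)| + Real.log 3 := by
      rw [abs_le]
      have := neg_abs_le (Real.log ((1 - x0) / 2))
      have := abs_nonneg (Real.log ((1 - x0) / 2))
      constructor <;> linarith
    have := abs_nonneg (Real.log (1 / (2 * hR x0)))
    have := abs_nonneg (Real.log (3 / (2 * hR x0)))
    have := abs_nonneg (Real.log (x0 / 2))
    rw [hD]
    linarith
  have q1 := hP1 _ i1
  have q2 := hP2 _ i2
  have q3 := hP3 _ i3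
  have half : ∀ z : ℂ, ‖1 / 2 * z‖ = ‖z‖ / 2 := by
    intro z
    rw [norm_mul]
    norm_num
    ring
  calc ‖kap p N w‖ ≤ ‖1 / 2 * Complex.log N + 1 / 2 * Complex.log w + 1 / 2 * Complex.log (1 - w)‖
        + ‖PC p (1 / N) - PC p (1 / (w * N)) - PC p (1 / ((1 - w) * N))‖ := norm_sub_le _ _
    _ ≤ (‖1 / 2 * Complex.log N‖ + ‖1 / 2 * Complex.log w‖ + ‖1 / 2 * Complex.log (1 - w)‖)
        + (‖PC p (1 / N)‖ + ‖PC p (1 / (w * N))‖ + ‖PC p (1 / ((1 - w) * N))‖) := by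
        apply add_le_add
        · exact norm_add₃_le
        · refine (norm_sub_le _ _).trans ?_
          exact add_le_add (norm_sub_le _ _) le_rfl
    _ ≤ Real.log L + (2 * D + M1 + M2 + M3) := by
        rw [half, half, half]
        have hDn : 0 ≤ D := (norm_nonneg _).trans l2
        linarith

/-- Lipschitz bound for `kap` -/
lemma kap_lip : ∃ C2 : ℝ, 0 ≤ C2 ∧ ∀ L : ℝ, 1 ≤ L → ∀ w N N' : ℂ, dist w x0 ≤ R →
    N ∈ Bl x0 L → N' ∈ Bl x0 L → ‖kap p N w - kap p N' w‖ ≤ C2 / L * ‖N - N'‖ := by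
  have hp := G.hpos
  have h0 := G.x0_pos
  have h1 : 0 < 1 - x0 := by have := G.x0_lt; linarith
  obtain ⟨K1, hK1, hP1⟩ := PC_lip p (2 * hR x0)
  obtain ⟨K2, hK2, hP2⟩ := PC_lip p (2 * hR x0 * (2 / x0))
  obtain ⟨K3, hK3, hP3⟩ := PC_lip p (2 * hR x0 * (2 / (1 - x0)))
  refine ⟨2 * hR x0 + (2 * hR x0) ^ 2 * (K1 + K2 * (2 / x0) + K3 * (2 / (1 - x0))),
    by positivity, ?_⟩
  intro L hL w N N' hw hN hN'
  have hLp : 0 < L := by linarith
  obtain ⟨i1, i2, i3⟩ := inv_bounds G hL hw hN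
  obtain ⟨j1, j2, j3⟩ := inv_bounds G hL hw hN'
  have hNge := Bl_norm_ge hN
  have hNge' := Bl_norm_ge hN'
  have hNpos : 0 < ‖N‖ := lt_of_lt_of_le (by positivity) hNge
  have hNpos' : 0 < ‖N'‖ := lt_of_lt_of_le (by positivity) hNge'
  have hN0 : N ≠ 0 := norm_pos_iff.1 hNpos
  have hN0' : N' ≠ 0 := norm_pos_iff.1 hNpos'
  set d := ‖N - N'‖ with hd
  have l1 : ‖Complex.log N - Complex.log N'‖ ≤ 2 * hR x0 / L * d := by
    have := (convex_closedBall ((L / hR x0 : ℝ) : ℂ) (L / (2 * hR x0))).norm_image_sub_le_of_norm_deriv_le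
      (f := Complex.log) (C := 2 * hR x0 / L) (x := N') (y := N) (by
        intro z hz
        have : z ∈ Complex.slitPlane := Or.inl (lt_of_lt_of_le (by positivity) (Bl_re hz))
        exact Complex.differentiableAt_log this) (by
        intro z hz
        have : z ∈ Complex.slitPlane := Or.inl (lt_of_lt_of_le (by positivity) (Bl_re hz))
        rw [(Complex.hasDerivAt_log this).deriv, norm_inv]
        have hz2 := Bl_norm_ge hz
        calc ‖z‖⁻¹ ≤ (L / (2 * hR x0))⁻¹ := inv_anti₀ (by positivity) hz2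
          _ = 2 * hR x0 / L := inv_div _ _) hN' hN
    exact this
  have l2 : ‖1 / N - 1 / N'‖ ≤ (2 * hR x0) ^ 2 / L * d := by
    have e : 1 / N - 1 / N' = (N' - N) / (N * N') := by field_simp
    rw [e, norm_div, norm_mul, norm_sub_rev, ← hd, div_le_iff₀ (by positivity)]
    have h2 : (L / (2 * hR x0)) * (L / (2 * hR x0)) ≤ ‖N‖ * ‖N'‖ :=
      mul_le_mul hNge hNge' (by positivity) (by positivity)
    have h3 : (2 * hR x0) ^ 2 / L * ((L / (2 * hR x0)) * (L / (2 * hR x0))) = L := by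
      field_simp
    calc d = d * 1 := by ring
      _ ≤ d * L := mul_le_mul_of_nonneg_left hL (norm_nonneg _)
      _ = (2 * hR x0) ^ 2 / L * d * ((L / (2 * hR x0)) * (L / (2 * hR x0))) := by
          rw [mul_right_comm, h3]; ring
      _ ≤ (2 * hR x0) ^ 2 / L * d * (‖N‖ * ‖N'‖) := mul_le_mul_of_nonneg_left h2 (by positivity)
  have e2 : ‖1 / w‖ ≤ 2 / x0 := by
    rw [norm_div, norm_one]
    calc 1 / ‖w‖ ≤ 1 / (x0 / 2) := one_div_le_one_div_of_le (by positivity) (G.norm_ge hw)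
      _ = 2 / x0 := one_div_div _ _
  have e3 : ‖1 / (1 - w)‖ ≤ 2 / (1 - x0) := by
    rw [norm_div, norm_one]
    calc 1 / ‖1 - w‖ ≤ 1 / ((1 - x0) / 2) := one_div_le_one_div_of_le (by positivity) (G.norm_ge' hw)
      _ = 2 / (1 - x0) := one_div_div _ _
  have l3 : ‖1 / (w * N) - 1 / (w * N')‖ ≤ (2 / x0) * ((2 * hR x0) ^ 2 / L * d) := by
    have : 1 / (w * N) - 1 / (w * N') = (1 / w) * (1 / N - 1 / N') := by
      rw [mul_sub, one_div_mul_one_div, one_div_mul_one_div]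
    rw [this, norm_mul]
    exact mul_le_mul e2 l2 (norm_nonneg _) (by positivity)
  have l4 : ‖1 / ((1 - w) * N) - 1 / ((1 - w) * N')‖ ≤ (2 / (1 - x0)) * ((2 * hR x0) ^ 2 / L * d) := by
    have : 1 / ((1 - w) * N) - 1 / ((1 - w) * N') = (1 / (1 - w)) * (1 / N - 1 / N') := by
      rw [mul_sub, one_div_mul_one_div, one_div_mul_one_div]
    rw [this, norm_mul]
    exact mul_le_mul e3 l2 (norm_nonneg _) (by positivity)
  have q1 := (hP1 _ _ i1 j1).trans (mul_le_mul_of_nonneg_left l2 hK1)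
  have q2 := (hP2 _ _ i2 j2).trans (mul_le_mul_of_nonneg_left l3 hK2)
  have q3 := (hP3 _ _ i3 j3).trans (mul_le_mul_of_nonneg_left l4 hK3)
  have e4 : kap p N w - kap p N' w = 1 / 2 * (Complex.log N - Complex.log N')
      - (PC p (1 / N) - PC p (1 / N')) + (PC p (1 / (w * N)) - PC p (1 / (w * N')))
      + (PC p (1 / ((1 - w) * N)) - PC p (1 / ((1 - w) * N'))) := by
    simp only [kap]; ring
  have half : ‖1 / 2 * (Complex.log N - Complex.log N')‖ ≤ 2 * hR x0 / L * d := by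
    rw [norm_mul]
    have : ‖(1 / 2 : ℂ)‖ = 1 / 2 := by norm_num
    rw [this]
    have := norm_nonneg (Complex.log N - Complex.log N')
    linarith
  rw [e4]
  calc _ ≤ ‖1 / 2 * (Complex.log N - Complex.log N')‖ + ‖PC p (1 / N) - PC p (1 / N')‖
        + ‖PC p (1 / (w * N)) - PC p (1 / (w * N'))‖
        + ‖PC p (1 / ((1 - w) * N)) - PC p (1 / ((1 - w) * N'))‖ := by
        refine (norm_add_le _ _).trans (add_le_add ?_ le_rfl)
        refine (norm_add_le _ _).trans (add_le_add ?_ le_rfl)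
        exact norm_sub_le _ _
    _ ≤ 2 * hR x0 / L * d + K1 * ((2 * hR x0) ^ 2 / L * d) + K2 * ((2 / x0) * ((2 * hR x0) ^ 2 / L * d))
        + K3 * ((2 / (1 - x0)) * ((2 * hR x0) ^ 2 / L * d)) := by linarith
    _ = _ := by ring

/-- `TL` maps `Bl` to `Bl` -/
lemma TL_mem {C1 L : ℝ} (hL : 1 ≤ L) (hk : ∀ w N : ℂ, dist w x0 ≤ R → N ∈ Bl x0 L →
    ‖kap p N w‖ ≤ Real.log L + C1) (hL1 : Real.log L + C1 ≤ L / 8) {w N : ℂ}
    (hw : dist w x0 ≤ R) (hN : N ∈ Bl x0 L) : TL p L N w ∈ Bl x0 L := by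
  have hp := G.hpos
  have h0 : (hR x0 : ℂ) ≠ 0 := by exact_mod_cast hp.ne'
  have hh := G.h_ne hw
  have hge := G.h_norm_ge hw
  have hLp : 0 < L := by linarith
  have e : TL p L N w - ((L / hR x0 : ℝ) : ℂ)
      = (L : ℂ) * ((hR x0 : ℂ) - hC w) / (hC w * (hR x0 : ℂ)) + kap p N w / hC w := by
    rw [TL]
    push_cast
    field_simp
    ring
  rw [Bl, mem_closedBall, dist_eq_norm, e]
  have a1 : ‖(L : ℂ) * ((hR x0 : ℂ) - hC w) / (hC w * (hR x0 : ℂ))‖ ≤ L / (4 * hR x0) := by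
    rw [norm_div, norm_mul, norm_mul, norm_sub_rev, Complex.norm_real, Complex.norm_real,
      Real.norm_of_nonneg hLp.le, Real.norm_of_nonneg hp.le]
    have h1 := G.h_near w hw
    calc L * ‖hC w - (hR x0 : ℂ)‖ / (‖hC w‖ * hR x0) ≤ L * (hR x0 / 8) / ((hR x0 / 2) * hR x0) := by
          gcongr
      _ = L / (4 * hR x0) := by field_simp; norm_num
  have a2 : ‖kap p N w / hC w‖ ≤ L / (4 * hR x0) := by
    rw [norm_div]
    calc ‖kap p N w‖ / ‖hC w‖ ≤ (L / 8) / (hR x0 / 2) := by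
          apply div_le_div₀ (by positivity) ((hk w N hw hN).trans hL1) (by positivity) hge
      _ = L / (4 * hR x0) := by field_simp; norm_num
  calc _ ≤ _ := norm_add_le _ _
    _ ≤ L / (4 * hR x0) + L / (4 * hR x0) := add_le_add a1 a2
    _ = L / (2 * hR x0) := by field_simp; norm_num

lemma TL_lip {C2 L : ℝ} (hL : 1 ≤ L) (hk : ∀ w N N' : ℂ, dist w x0 ≤ R →
    N ∈ Bl x0 L → N' ∈ Bl x0 L → ‖kap p N w - kap p N' w‖ ≤ C2 / L * ‖N - N'‖)
    {w N N' : ℂ} (hw : dist w x0 ≤ R) (hN : N ∈ Bl x0 L) (hN' : N' ∈ Bl x0 L) :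
    ‖TL p L N w - TL p L N' w‖ ≤ C2 * (2 / hR x0) / L * ‖N - N'‖ := by
  have hp := G.hpos
  have hge := G.h_norm_ge hw
  have e : TL p L N w - TL p L N' w = (kap p N w - kap p N' w) / hC w := by
    rw [TL, TL, ← sub_div]
    congr 1
    ring
  rw [e, norm_div]
  have h1 := hk w N N' hw hN hN'
  calc ‖kap p N w - kap p N' w‖ / ‖hC w‖ ≤ (C2 / L * ‖N - N'‖) / (hR x0 / 2) :=
        div_le_div₀ ((norm_nonneg _).trans h1) h1 (by positivity) hge
    _ = _ := by field_simp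

lemma itN_mem {C1 L : ℝ} (hL : 1 ≤ L) (hk : ∀ w N : ℂ, dist w x0 ≤ R → N ∈ Bl x0 L →
    ‖kap p N w‖ ≤ Real.log L + C1) (hL1 : Real.log L + C1 ≤ L / 8) {w : ℂ}
    (hw : dist w x0 ≤ R) (k : ℕ) : itN p x0 L k w ∈ Bl x0 L := by
  induction k with
  | zero =>
    rw [itN, Bl]
    have hp := G.hpos
    exact mem_closedBall_self (by positivity)
  | succ k ih => exact TL_mem G p hL hk hL1 hw ih

lemma hC_diff {w : ℂ} (hw : dist w x0 ≤ R) : DifferentiableAt ℂ hC w := by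
  have c1 : DifferentiableAt ℂ (fun w : ℂ => Complex.log w) w :=
    Complex.differentiableAt_log (G.slit hw)
  have c2 : DifferentiableAt ℂ (fun w : ℂ => Complex.log (1 - w)) w :=
    ((differentiableAt_const 1).sub differentiableAt_id).clog (G.slit' hw)
  exact ((differentiableAt_id.mul c1).neg).sub
    (((differentiableAt_const 1).sub differentiableAt_id).mul c2)

lemma itN_diff {C1 L : ℝ} (hL : 1 ≤ L) (hk : ∀ w N : ℂ, dist w x0 ≤ R → N ∈ Bl x0 L →
    ‖kap p N w‖ ≤ Real.log L + C1) (hL1 : Real.log L + C1 ≤ L / 8) {w : ℂ}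
    (hw : dist w x0 ≤ R) (k : ℕ) : DifferentiableAt ℂ (itN p x0 L k) w := by
  have hp := G.hpos
  have hx0 := G.x0_pos
  have hx1 : 0 < 1 - x0 := by have := G.x0_lt; linarith
  induction k with
  | zero => exact differentiableAt_const _
  | succ k ih =>
    have hm := itN_mem G p hL hk hL1 hw k
    have hLp : 0 < L := by linarith
    have hN0 : itN p x0 L k w ≠ 0 := by
      apply norm_pos_iff.1
      exact lt_of_lt_of_le (by positivity) (Bl_norm_ge hm)
    have hw0 : w ≠ 0 := norm_pos_iff.1 (lt_of_lt_of_le (by positivity) (G.norm_ge hw))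
    have hw1 : 1 - w ≠ 0 := norm_pos_iff.1 (lt_of_lt_of_le (by positivity) (G.norm_ge' hw))
    have hs : itN p x0 L k w ∈ Complex.slitPlane :=
      Or.inl (lt_of_lt_of_le (by positivity) (Bl_re hm))
    have c0 : DifferentiableAt ℂ (fun w => Complex.log (itN p x0 L k w)) w := ih.clog hs
    have c1 : DifferentiableAt ℂ (fun w : ℂ => Complex.log w) w :=
      Complex.differentiableAt_log (G.slit hw)
    have c2 : DifferentiableAt ℂ (fun w : ℂ => Complex.log (1 - w)) w :=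
      ((differentiableAt_const 1).sub differentiableAt_id).clog (G.slit' hw)
    have hid : DifferentiableAt ℂ (fun w : ℂ => w) w := differentiableAt_id
    have P1 : DifferentiableAt ℂ (fun w => PC p (1 / itN p x0 L k w)) w :=
      ((p.map (algebraMap ℝ ℂ)).differentiable _).comp w ((differentiableAt_const 1).div ih hN0)
    have P2 : DifferentiableAt ℂ (fun w => PC p (1 / (w * itN p x0 L k w))) w :=
      ((p.map (algebraMap ℝ ℂ)).differentiable _).comp w
        ((differentiableAt_const 1).div (hid.mul ih) (mul_ne_zero hw0 hN0))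
    have P3 : DifferentiableAt ℂ (fun w => PC p (1 / ((1 - w) * itN p x0 L k w))) w :=
      ((p.map (algebraMap ℝ ℂ)).differentiable _).comp w
        ((differentiableAt_const 1).div (((differentiableAt_const 1).sub hid).mul ih)
          (mul_ne_zero hw1 hN0))
    have hkd : DifferentiableAt ℂ (fun w => kap p (itN p x0 L k w) w) w :=
      (((c0.const_mul (1 / 2)).add (c1.const_mul (1 / 2))).add (c2.const_mul (1 / 2))).sub
        ((P1.sub P2).sub P3)
    exact ((differentiableAt_const _).add hkd).div (hC_diff G hw) (G.h_ne hw)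

end bounds

end Pool.Agent.H43.Sing
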