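import Pool.Agent.H43.Sing.Iter

/-! The real solutions, and the main statement `CIterSt`. -/

namespace Pool.Agent.H43.Sing

open Filter Topology Metric

/-- the real version of `kap` -/
noncomputable def kapR (p : Polynomial ℝ) (N x : ℝ) : ℝ :=
  1 / 2 * Real.log N + 1 / 2 * Real.log x + 1 / 2 * Real.log (1 - x)
    - (p.eval (1 / N) - p.eval (1 / (x * N)) - p.eval (1 / ((1 - x) * N)))

lemma kap_ofReal (p : Polynomial ℝ) {N x : ℝ} (hN : 0 ≤ N) (h0 : 0 ≤ x) (h1 : x ≤ 1) :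
    kap p (N : ℂ) (x : ℂ) = (kapR p N x : ℂ) := by
  have e : (1 : ℂ) - (x : ℂ) = ((1 - x : ℝ) : ℂ) := by push_cast; rfl
  have e1 : (1 : ℂ) / (N : ℂ) = ((1 / N : ℝ) : ℂ) := by push_cast; rfl
  have e2 : (1 : ℂ) / ((x : ℂ) * (N : ℂ)) = ((1 / (x * N) : ℝ) : ℂ) := by push_cast; rfl
  have e3 : (1 : ℂ) / (((1 - x : ℝ) : ℂ) * (N : ℂ)) = ((1 / ((1 - x) * N) : ℝ) : ℂ) := by
    push_cast; rfl
  rw [kap, kapR, e, ← Complex.ofReal_log hN, ← Complex.ofReal_log h0,
    ← Complex.ofReal_log (by linarith : (0 : ℝ) ≤ 1 - x), e1, e2, e3, PC_ofReal, PC_ofReal, PC_ofReal]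
  push_cast
  rfl

/-- the relation at a solution -/
lemma sol_rel {A : ℕ} {p : Polynomial ℝ} {Cs : ℝ}
    (hp : ∀ k : ℕ, 1 ≤ k →
      |Real.log (k.factorial : ℝ) - (((k : ℝ) + 1 / 2) * Real.log k - k + p.eval (1 / (k : ℝ)))|
        ≤ Cs * (1 / (k : ℝ)) ^ A) {m n : ℕ} (hm : 1 ≤ m) (hmn : m < n) :
    |(n : ℝ) * hR ((m : ℝ) / n) - (Real.log (n.choose m : ℝ) + kapR p n ((m : ℝ) / n))|
      ≤ Cs * (1 / (n : ℝ)) ^ A + Cs * (1 / (m : ℝ)) ^ A + Cs * (1 / ((n - m : ℕ) : ℝ)) ^ A := by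
  have hn : 1 ≤ n := by omega
  have hk : 1 ≤ n - m := by omega
  have h1 := hp n hn
  have h2 := hp m hm
  have h3 := hp (n - m) hk
  have hmR : (0 : ℝ) < m := by exact_mod_cast hm
  have hnR : (0 : ℝ) < n := by exact_mod_cast hn
  have hkR : (0 : ℝ) < ((n - m : ℕ) : ℝ) := by exact_mod_cast hk
  have hkc : ((n - m : ℕ) : ℝ) = (n : ℝ) - m := by rw [Nat.cast_sub hmn.le]
  have hx1 : 1 - (m : ℝ) / n = ((n - m : ℕ) : ℝ) / n := by
    rw [hkc]; field_simp
  have hlog : Real.log (n.choose m : ℝ) = Real.log (n.factorial : ℝ) - Real.log (m.factorial : ℝ)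
      - Real.log ((n - m).factorial : ℝ) := by
    have hc : (n.choose m : ℝ) * (m.factorial : ℝ) * ((n - m).factorial : ℝ) = (n.factorial : ℝ) := by
      exact_mod_cast Nat.choose_mul_factorial_mul_factorial hmn.le
    have hc0 : (0 : ℝ) < (n.choose m : ℝ) := by exact_mod_cast Nat.choose_pos hmn.le
    rw [← hc, Real.log_mul (by positivity) (by positivity), Real.log_mul (by positivity) (by positivity)]
    ring
  have hl1 : Real.log ((m : ℝ) / n) = Real.log m - Real.log n := Real.log_div hmR.ne' hnR.ne'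
  have hl2 : Real.log (((n - m : ℕ) : ℝ) / n) = Real.log ((n - m : ℕ) : ℝ) - Real.log n :=
    Real.log_div hkR.ne' hnR.ne'
  have ex1 : (m : ℝ) / n * n = m := by field_simp
  have ex2 : ((n - m : ℕ) : ℝ) / n * n = ((n - m : ℕ) : ℝ) := by field_simp
  have hkap : kapR p n ((m : ℝ) / n) = 1 / 2 * Real.log n + 1 / 2 * (Real.log m - Real.log n)
      + 1 / 2 * (Real.log ((n - m : ℕ) : ℝ) - Real.log n)
      - (p.eval (1 / (n : ℝ)) - p.eval (1 / (m : ℝ)) - p.eval (1 / ((n - m : ℕ) : ℝ))) := by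
    rw [kapR, hx1, hl1, hl2, ex1, ex2]
  have hh : (n : ℝ) * hR ((m : ℝ) / n) = -(m * (Real.log m - Real.log n))
      - ((n - m : ℕ) : ℝ) * (Real.log ((n - m : ℕ) : ℝ) - Real.log n) := by
    rw [hR, hx1, hl1, hl2]
    field_simp
  have key : (n : ℝ) * hR ((m : ℝ) / n) - (Real.log (n.choose m : ℝ) + kapR p n ((m : ℝ) / n))
      = -(Real.log (n.factorial : ℝ) - (((n : ℝ) + 1 / 2) * Real.log n - n + p.eval (1 / (n : ℝ))))
        + (Real.log (m.factorial : ℝ) - (((m : ℝ) + 1 / 2) * Real.log m - m + p.eval (1 / (m : ℝ))))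
        + (Real.log ((n - m).factorial : ℝ) - ((((n - m : ℕ) : ℝ) + 1 / 2) * Real.log ((n - m : ℕ) : ℝ)
            - ((n - m : ℕ) : ℝ) + p.eval (1 / ((n - m : ℕ) : ℝ)))) := by
    rw [hh, hkap, hlog]
    have : ((n : ℝ)) = m + ((n - m : ℕ) : ℝ) := by rw [hkc]; ring
    linear_combination (1 - Real.log n) * this
  rw [key]
  calc _ ≤ |-(Real.log (n.factorial : ℝ) - (((n : ℝ) + 1 / 2) * Real.log n - n + p.eval (1 / (n : ℝ))))|
        + |(Real.log (m.factorial : ℝ) - (((m : ℝ) + 1 / 2) * Real.log m - m + p.eval (1 / (m : ℝ))))|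
        + |(Real.log ((n - m).factorial : ℝ) - ((((n - m : ℕ) : ℝ) + 1 / 2) * Real.log ((n - m : ℕ) : ℝ)
            - ((n - m : ℕ) : ℝ) + p.eval (1 / ((n - m : ℕ) : ℝ))))| := abs_add_three _ _ _
    _ ≤ _ := by
        rw [abs_neg]
        exact add_le_add (add_le_add h1 h2) h3

lemma L_le_n {m n : ℕ} {L : ℝ} (hL : Real.log (n.choose m : ℝ) = L) (hmn : m ≤ n) : L ≤ n := by
  have h1 : (n.choose m : ℝ) ≤ 2 ^ n := by exact_mod_cast Nat.choose_le_two_pow n m
  have h2 : (0 : ℝ) < (n.choose m : ℝ) := by exact_mod_cast Nat.choose_pos hmn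
  have h3 := Real.log_le_log h2 h1
  rw [hL, Real.log_pow] at h3
  have h4 : Real.log 2 ≤ 1 := by
    have := Real.log_two_lt_d9
    linarith
  calc L ≤ n * Real.log 2 := h3
    _ ≤ n * 1 := mul_le_mul_of_nonneg_left h4 (Nat.cast_nonneg n)
    _ = n := mul_one _

section sol

variable {x0 R : ℝ} (G : Good x0 R) {A : ℕ} {p : Polynomial ℝ} {Cs : ℝ} (hCs : 0 ≤ Cs)
  (hp : ∀ k : ℕ, 1 ≤ k →
      |Real.log (k.factorial : ℝ) - (((k : ℝ) + 1 / 2) * Real.log k - k + p.eval (1 / (k : ℝ)))|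
        ≤ Cs * (1 / (k : ℝ)) ^ A)
include G hCs hp

lemma sol_mem : ∃ L1 : ℝ, 1 ≤ L1 ∧ ∀ L : ℝ, L1 ≤ L → ∀ m n : ℕ, 1 ≤ m → m < n →
    |(m : ℝ) / n - x0| ≤ R → Real.log (n.choose m : ℝ) = L → (n : ℂ) ∈ Bl x0 L := by
  have hpos := G.hpos
  have hx0 := G.x0_pos
  have hx1 : 0 < 1 - x0 := by have := G.x0_lt; linarith
  obtain ⟨M, hM, hpM⟩ := poly_bdd p
  set C3 : ℝ := |Real.log (x0 / 2)| + |Real.log ((1 - x0) / 2)| + 3 * M + 3 * Cs with hC3
  have hlit : ∀ᶠ y : ℝ in atTop, 1 / 2 * Real.log y + C3 ≤ hR x0 / 16 * y := by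
    have h1 := Real.isLittleO_log_id_atTop.bound (show (0 : ℝ) < hR x0 / 16 by positivity)
    have h2 : ∀ᶠ y : ℝ in atTop, C3 ≤ hR x0 / 32 * y := by
      filter_upwards [eventually_ge_atTop (C3 / (hR x0 / 32))] with y hy
      rw [div_le_iff₀ (by positivity)] at hy
      linarith
    filter_upwards [h1, h2, eventually_ge_atTop (1 : ℝ)] with y a1 a2 a3
    rw [id, Real.norm_of_nonneg (Real.log_nonneg a3), Real.norm_of_nonneg (by linarith)] at a1
    linarith
  obtain ⟨Y, hY⟩ := eventually_atTop.1 hlit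
  refine ⟨max Y 1, le_max_right _ _, ?_⟩
  intro L hL m n hm hmn hx hLe
  have hLY : Y ≤ L := (le_max_left _ _).trans hL
  have hL1 : 1 ≤ L := (le_max_right _ _).trans hL
  have hnL : L ≤ n := L_le_n hLe hmn.le
  have hsm := hY n (hLY.trans hnL)
  have hmR : (0 : ℝ) < m := by exact_mod_cast hm
  have hnR : (0 : ℝ) < n := by linarith
  have hkN : 1 ≤ n - m := by omega
  have hkR : (1 : ℝ) ≤ ((n - m : ℕ) : ℝ) := by exact_mod_cast hkN
  have hkc : ((n - m : ℕ) : ℝ) = (n : ℝ) - m := by rw [Nat.cast_sub hmn.le]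
  set x : ℝ := (m : ℝ) / n with hxdef
  have hx2 := abs_le.1 hx
  have hR1 := G.R_le
  have hR2 := G.R_le'
  have hxpos : x0 / 2 ≤ x := by linarith
  have hxlt : (1 - x0) / 2 ≤ 1 - x := by linarith
  have exn : x * n = m := by rw [hxdef]; field_simp
  have exk : (1 - x) * n = ((n - m : ℕ) : ℝ) := by rw [sub_mul, exn, one_mul, hkc]
  have hrel := sol_rel hp hm hmn
  rw [hLe, ← hxdef] at hrel
  -- errors
  have hE : Cs * (1 / (n : ℝ)) ^ A + Cs * (1 / (m : ℝ)) ^ A + Cs * (1 / ((n - m : ℕ) : ℝ)) ^ A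
      ≤ 3 * Cs := by
    have g : ∀ k : ℕ, 1 ≤ k → Cs * (1 / (k : ℝ)) ^ A ≤ Cs := by
      intro k hk
      have := inv_mem hk
      calc Cs * (1 / (k : ℝ)) ^ A ≤ Cs * 1 :=
            mul_le_mul_of_nonneg_left (pow_le_one₀ this.1.le this.2) hCs
        _ = Cs := mul_one _
    have := g n (by omega)
    have := g m hm
    have := g (n - m) hkN
    linarith
  -- kapR
  have hkap : |kapR p n x| ≤ 1 / 2 * Real.log n + (|Real.log (x0 / 2)| + |Real.log ((1 - x0) / 2)| + 3 * M) := by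
    have l1 : |Real.log x| ≤ |Real.log (x0 / 2)| := by
      have a1 : Real.log x ≤ 0 := Real.log_nonpos (by linarith) (by linarith)
      have a2 : Real.log (x0 / 2) ≤ Real.log x := Real.log_le_log (by positivity) hxpos
      rw [abs_of_nonpos a1, abs_of_nonpos (a2.trans a1)]
      linarith
    have l2 : |Real.log (1 - x)| ≤ |Real.log ((1 - x0) / 2)| := by
      have a1 : Real.log (1 - x) ≤ 0 := Real.log_nonpos (by linarith) (by linarith)
      have a2 : Real.log ((1 - x0) / 2) ≤ Real.log (1 - x) := Real.log_le_log (by positivity) hxlt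
      rw [abs_of_nonpos a1, abs_of_nonpos (a2.trans a1)]
      linarith
    have l3 : 0 ≤ Real.log n := Real.log_nonneg (by linarith)
    have i1 := inv_mem (show 1 ≤ n by omega)
    have i2 := inv_mem hm
    have i3 := inv_mem hkN
    have p1 := hpM _ i1.1.le i1.2
    have p2 := hpM _ i2.1.le i2.2
    have p3 := hpM _ i3.1.le i3.2
    rw [kapR, exn, exk]
    have b1 := abs_le.1 l1
    have b2 := abs_le.1 l2
    have c1 := abs_le.1 p1
    have c2 := abs_le.1 p2
    have c3 := abs_le.1 p3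
    have d1 := abs_nonneg (Real.log (x0 / 2))
    have d2 := abs_nonneg (Real.log ((1 - x0) / 2))
    rw [abs_le]
    constructor <;> linarith
  have h1 : |(n : ℝ) * hR x - L| ≤ hR x0 / 16 * n := by
    have a1 := abs_le.1 (hrel.trans hE)
    have a2 := abs_le.1 hkap
    have a3 : 1 / 2 * Real.log n + C3 ≤ hR x0 / 16 * n := hsm
    rw [hC3] at a3
    rw [abs_le]
    constructor <;> linarith
  have h2 : |hR x - hR x0| ≤ hR x0 / 8 := by
    have := G.h_near (x : ℂ) (by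
      rw [dist_eq_norm, ← Complex.ofReal_sub, Complex.norm_real]
      exact hx)
    rw [hC_ofReal (by linarith) (by linarith), ← Complex.ofReal_sub, Complex.norm_real] at this
    exact this
  have h3 : |(n : ℝ) * hR x - n * hR x0| ≤ n * (hR x0 / 8) := by
    rw [← mul_sub, abs_mul, abs_of_pos hnR]
    exact mul_le_mul_of_nonneg_left h2 hnR.le
  have h4 : |(n : ℝ) * hR x0 - L| ≤ 3 / 16 * (n * hR x0) := by
    have a1 := abs_le.1 h1
    have a3 := abs_le.1 h3
    rw [abs_le]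
    constructor <;> linarith
  have h5 : (n : ℝ) * hR x0 ≤ 16 / 13 * L := by
    have a4 := abs_le.1 h4
    linarith
  have h6 : |(n : ℝ) * hR x0 - L| ≤ L / 2 := by
    refine h4.trans ?_
    linarith
  rw [Bl, mem_closedBall, dist_eq_norm]
  have e : (n : ℂ) - ((L / hR x0 : ℝ) : ℂ) = (((n : ℝ) * hR x0 - L) / hR x0 : ℝ) := by
    push_cast
    have : (hR x0 : ℂ) ≠ 0 := by exact_mod_cast hpos.ne'
    field_simp
  rw [e, Complex.norm_real, Real.norm_eq_abs, abs_div, abs_of_pos hpos]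
  calc |(n : ℝ) * hR x0 - L| / hR x0 ≤ (L / 2) / hR x0 := by gcongr
    _ = L / (2 * hR x0) := by rw [div_div]

/-- the solution is an approximate fixed point -/
lemma sol_fix : ∃ C5 : ℝ, 0 ≤ C5 ∧ ∀ L : ℝ, 1 ≤ L → ∀ m n : ℕ, 1 ≤ m → m < n →
    |(m : ℝ) / n - x0| ≤ R → Real.log (n.choose m : ℝ) = L →
    ‖TL p L (n : ℂ) (((m : ℝ) / n : ℝ) : ℂ) - (n : ℂ)‖ ≤ C5 / L ^ A := by
  have hpos := G.hpos
  have hx0 := G.x0_pos
  have hx1 : 0 < 1 - x0 := by have := G.x0_lt; linarith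
  refine ⟨Cs * (1 + (2 / x0) ^ A + (2 / (1 - x0)) ^ A) * (2 / hR x0), by positivity, ?_⟩
  intro L hL m n hm hmn hx hLe
  have hnL : L ≤ n := L_le_n hLe hmn.le
  have hmR : (0 : ℝ) < m := by exact_mod_cast hm
  have hnR : (0 : ℝ) < n := by linarith
  have hkN : 1 ≤ n - m := by omega
  have hkR : (1 : ℝ) ≤ ((n - m : ℕ) : ℝ) := by exact_mod_cast hkN
  have hkc : ((n - m : ℕ) : ℝ) = (n : ℝ) - m := by rw [Nat.cast_sub hmn.le]
  set x : ℝ := (m : ℝ) / n with hxdef
  have hx2 := abs_le.1 hx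
  have hR1 := G.R_le
  have hR2 := G.R_le'
  have hxpos : x0 / 2 ≤ x := by linarith
  have hxlt : (1 - x0) / 2 ≤ 1 - x := by linarith
  have exn : x * n = m := by rw [hxdef]; field_simp
  have exk : (1 - x) * n = ((n - m : ℕ) : ℝ) := by rw [sub_mul, exn, one_mul, hkc]
  have hrel := sol_rel hp hm hmn
  rw [hLe, ← hxdef] at hrel
  have hd : dist (x : ℂ) (x0 : ℂ) ≤ R := by
    rw [dist_eq_norm, ← Complex.ofReal_sub, Complex.norm_real]
    exact hx
  have hge := G.h_norm_ge hd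
  rw [hC_ofReal (by linarith) (by linarith), Complex.norm_real] at hge
  have hxp : 0 < hR x := hR_pos (by linarith) (by linarith)
  rw [Real.norm_of_nonneg hxp.le] at hge
  have e : TL p L (n : ℂ) (x : ℂ) - (n : ℂ)
      = ((-((n : ℝ) * hR x - (L + kapR p n x)) / hR x : ℝ) : ℂ) := by
    have e1 : kap p (n : ℂ) (x : ℂ) = (kapR p n x : ℂ) := by
      have := kap_ofReal p (N := (n : ℝ)) (x := x) hnR.le (by linarith) (by linarith)
      simpa using this
    rw [TL, e1, hC_ofReal (by linarith) (by linarith)]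
    have : (hR x : ℂ) ≠ 0 := by exact_mod_cast hxp.ne'
    push_cast
    field_simp
    ring
  rw [e, Complex.norm_real, Real.norm_eq_abs, abs_div, abs_neg, abs_of_pos hxp]
  have hE : Cs * (1 / (n : ℝ)) ^ A + Cs * (1 / (m : ℝ)) ^ A + Cs * (1 / ((n - m : ℕ) : ℝ)) ^ A
      ≤ Cs * (1 + (2 / x0) ^ A + (2 / (1 - x0)) ^ A) * (1 / L) ^ A := by
    have b1 : 1 / (n : ℝ) ≤ 1 / L := one_div_le_one_div_of_le (by linarith) hnL
    have b2 : 1 / (m : ℝ) ≤ 2 / x0 * (1 / L) := by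
      rw [← exn]
      calc 1 / (x * n) ≤ 1 / (x0 / 2 * L) := by
            apply one_div_le_one_div_of_le (by positivity)
            exact mul_le_mul hxpos hnL (by linarith) (by linarith)
        _ = 2 / x0 * (1 / L) := by field_simp
    have b3 : 1 / ((n - m : ℕ) : ℝ) ≤ 2 / (1 - x0) * (1 / L) := by
      rw [← exk]
      calc 1 / ((1 - x) * n) ≤ 1 / ((1 - x0) / 2 * L) := by
            apply one_div_le_one_div_of_le (by positivity)
            exact mul_le_mul hxlt hnL (by linarith) (by linarith)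
        _ = 2 / (1 - x0) * (1 / L) := by field_simp
    have c1 : (1 / (n : ℝ)) ^ A ≤ (1 / L) ^ A := pow_le_pow_left₀ (by positivity) b1 A
    have c2 : (1 / (m : ℝ)) ^ A ≤ (2 / x0) ^ A * (1 / L) ^ A := by
      rw [← mul_pow]; exact pow_le_pow_left₀ (by positivity) b2 A
    have c3 : (1 / ((n - m : ℕ) : ℝ)) ^ A ≤ (2 / (1 - x0)) ^ A * (1 / L) ^ A := by
      rw [← mul_pow]; exact pow_le_pow_left₀ (by positivity) b3 A
    calc _ = Cs * ((1 / (n : ℝ)) ^ A + (1 / (m : ℝ)) ^ A + (1 / ((n - m : ℕ) : ℝ)) ^ A) := by ring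
      _ ≤ Cs * ((1 / L) ^ A + (2 / x0) ^ A * (1 / L) ^ A + (2 / (1 - x0)) ^ A * (1 / L) ^ A) :=
          mul_le_mul_of_nonneg_left (add_le_add (add_le_add c1 c2) c3) hCs
      _ = _ := by ring
  have hLp : 0 < L := by linarith
  calc |(n : ℝ) * hR x - (L + kapR p n x)| / hR x
      ≤ (Cs * (1 + (2 / x0) ^ A + (2 / (1 - x0)) ^ A) * (1 / L) ^ A) / (hR x0 / 2) :=
        div_le_div₀ (by positivity) (hrel.trans hE) (by positivity) hge
    _ = Cs * (1 + (2 / x0) ^ A + (2 / (1 - x0)) ^ A) * (2 / hR x0) / L ^ A := by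
        rw [one_div, inv_pow]
        field_simp

end sol

/-- convergence of the iteration -/
lemma iter_conv {e : ℕ → ℝ} {q E D : ℝ} (hq : 0 ≤ q) (hq2 : q ≤ 1 / 2) (hE : 0 ≤ E)
    (h0 : e 0 ≤ D) (h : ∀ k, e (k + 1) ≤ q * e k + E) (k : ℕ) : e k ≤ q ^ k * D + 2 * E := by
  induction k with
  | zero => rw [pow_zero, one_mul]; linarith
  | succ k ih =>
    have h1 := h k
    have h2 : q * e k ≤ q * (q ^ k * D + 2 * E) := mul_le_mul_of_nonneg_left ih hq
    have h3 : q * (2 * E) ≤ 1 / 2 * (2 * E) := mul_le_mul_of_nonneg_right hq2 (by linarith)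
    rw [pow_succ]
    nlinarith

/-- **Module Iter**. -/
theorem iter : CIterSt := by
  intro x0 hx0 hx1
  obtain ⟨R, G⟩ := exists_good hx0 hx1
  have hpos := G.hpos
  refine ⟨R, max 1 (3 / (2 * hR x0)), G.R_pos, G.R_le, G.R_le', le_max_left _ _, ?_⟩
  intro A
  obtain ⟨p, Cs, hCs, hp⟩ := stirling_series A
  obtain ⟨C1, hC1, hk1⟩ := kap_bound G p
  obtain ⟨C2, hC2, hk2⟩ := kap_lip G p
  obtain ⟨L1, hL1, hmem⟩ := sol_mem G hCs hp
  obtain ⟨C5, hC5, hfix⟩ := sol_fix G hCs hp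
  set q : ℝ := C2 * (2 / hR x0) with hq
  have hq0 : 0 ≤ q := by positivity
  have hlit : ∀ᶠ L : ℝ in atTop, Real.log L + C1 ≤ L / 8 := by
    have h1 := Real.isLittleO_log_id_atTop.bound (show (0 : ℝ) < 1 / 16 by norm_num)
    filter_upwards [h1, eventually_ge_atTop (16 * C1), eventually_ge_atTop (1 : ℝ)] with y a1 a2 a3
    rw [id, Real.norm_of_nonneg (Real.log_nonneg a3), Real.norm_of_nonneg (by linarith)] at a1
    linarith
  obtain ⟨L2, hL2⟩ := eventually_atTop.1 hlit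
  refine ⟨q ^ (A + 1) * (1 / hR x0) + 2 * C5 + (C1 + 1) * (2 / hR x0),
    max (max L1 L2) (max 1 (2 * q)), by positivity, (le_max_left _ _).trans (le_max_right _ _), ?_⟩
  intro L hL
  have hLL1 : L1 ≤ L := (le_max_left _ _).trans ((le_max_left _ _).trans hL)
  have hLL2 : L2 ≤ L := (le_max_right _ _).trans ((le_max_left _ _).trans hL)
  have hLone : 1 ≤ L := (le_max_left _ _).trans ((le_max_right _ _).trans hL)
  have hL2q : 2 * q ≤ L := (le_max_right _ _).trans ((le_max_right _ _).trans hL)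
  have hLp : 0 < L := by linarith
  have hsm := hL2 L hLL2
  have hlogL : 0 ≤ Real.log L := Real.log_nonneg hLone
  have hkb := hk1 L hLone
  have hkl := hk2 L hLone
  have hmemN : ∀ k w, dist w (x0 : ℂ) ≤ R → itN p x0 L k w ∈ Bl x0 L := fun k w hw =>
    itN_mem G p hLone hkb hsm hw k
  have hC0 : ∀ z : ℂ, z ∈ Bl x0 L → ‖z‖ ≤ max 1 (3 / (2 * hR x0)) * L := by
    intro z hz
    calc ‖z‖ ≤ 3 * (L / (2 * hR x0)) := Bl_norm_le hpos hLp.le hz
      _ = 3 / (2 * hR x0) * L := by ring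
      _ ≤ _ := mul_le_mul_of_nonneg_right (le_max_right _ _) hLp.le
  refine ⟨itN p x0 L (A + 1), ?_, ?_, ?_, ?_⟩
  · intro w hw
    exact (itN_diff G p hLone hkb hsm (mem_ball.1 hw).le (A + 1)).differentiableWithinAt
  · intro w hw
    exact hC0 _ (hmemN (A + 1) w (mem_ball.1 hw).le)
  · intro x hx
    have hR1 := G.R_le
    have hR2 := G.R_le'
    have hx2 := abs_lt.1 hx
    have hd : dist (x : ℂ) (x0 : ℂ) ≤ R := by
      rw [dist_eq_norm, ← Complex.ofReal_sub, Complex.norm_real]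
      exact hx.le
    have hge := G.h_norm_ge hd
    have hxp : 0 < hR x := hR_pos (by linarith) (by linarith)
    have hk := hkb x _ hd (hmemN A x hd)
    have e : itN p x0 L (A + 1) (x : ℂ) / (L : ℂ) - ((1 / hR x : ℝ) : ℂ)
        = kap p (itN p x0 L A x) x / hC x / (L : ℂ) := by
      have h0 : itN p x0 L (A + 1) (x : ℂ) = ((L : ℂ) + kap p (itN p x0 L A x) x) / hC x := rfl
      rw [h0, hC_ofReal (by linarith) (by linarith)]
      have h1 : (hR x : ℂ) ≠ 0 := by exact_mod_cast hxp.ne'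
      have h2 : (L : ℂ) ≠ 0 := by exact_mod_cast hLp.ne'
      push_cast
      field_simp
      ring
    rw [e, norm_div, norm_div, Complex.norm_real, Real.norm_of_nonneg hLp.le]
    have h3 : ‖kap p (itN p x0 L A x) x‖ / ‖hC x‖ ≤ (Real.log L + C1) / (hR x0 / 2) :=
      div_le_div₀ (by positivity) hk (by positivity) hge
    have h4 : (Real.log L + C1) / (hR x0 / 2) ≤ (C1 + 1) * (2 / hR x0) * (1 + Real.log L) := by
      have : (Real.log L + C1) ≤ (C1 + 1) * (1 + Real.log L) := by nlinarith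
      calc (Real.log L + C1) / (hR x0 / 2) = (Real.log L + C1) * (2 / hR x0) := by field_simp
        _ ≤ ((C1 + 1) * (1 + Real.log L)) * (2 / hR x0) :=
            mul_le_mul_of_nonneg_right this (by positivity)
        _ = _ := by ring
    have h5 : (C1 + 1) * (2 / hR x0) * (1 + Real.log L)
        ≤ (q ^ (A + 1) * (1 / hR x0) + 2 * C5 + (C1 + 1) * (2 / hR x0)) * (1 + Real.log L) := by
      apply mul_le_mul_of_nonneg_right _ (by linarith)
      have : 0 ≤ q ^ (A + 1) * (1 / hR x0) := by positivity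
      linarith
    gcongr
    exact h3.trans (h4.trans h5)
  · intro m n hm hmn hx hLe
    have hxle := hx.le
    have hd : dist (((m : ℝ) / n : ℝ) : ℂ) (x0 : ℂ) ≤ R := by
      rw [dist_eq_norm, ← Complex.ofReal_sub, Complex.norm_real]
      exact hxle
    have hnB := hmem L hLL1 m n hm hmn hxle hLe
    have hf := hfix L hLone m n hm hmn hxle hLe
    constructor
    · set w : ℂ := (((m : ℝ) / n : ℝ) : ℂ) with hw
      have hconv := iter_conv (e := fun k => ‖itN p x0 L k w - (n : ℂ)‖) (q := q / L)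
        (E := C5 / L ^ A) (D := L / hR x0) (by positivity) (by
          rw [div_le_iff₀ hLp]; linarith) (by positivity) (by
          have a1 := hmemN 0 w hd
          have a2 := hnB
          rw [Bl, mem_closedBall] at a1 a2
          have a3 := dist_triangle_right (itN p x0 L 0 w) (n : ℂ) ((L / hR x0 : ℝ) : ℂ)
          rw [dist_eq_norm (itN p x0 L 0 w) (n : ℂ)] at a3
          have a4 : L / (2 * hR x0) + L / (2 * hR x0) = L / hR x0 := by field_simp; ring
          show ‖itN p x0 L 0 w - (n : ℂ)‖ ≤ L / hR x0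
          linarith) (by
          intro k
          show ‖TL p L (itN p x0 L k w) w - (n : ℂ)‖ ≤ _
          have b1 := TL_lip G p hLone hkl hd (hmemN k w hd) hnB
          calc ‖TL p L (itN p x0 L k w) w - (n : ℂ)‖
              = ‖(TL p L (itN p x0 L k w) w - TL p L n w) + (TL p L n w - (n : ℂ))‖ := by
                rw [sub_add_sub_cancel]
            _ ≤ _ := norm_add_le _ _
            _ ≤ q / L * ‖itN p x0 L k w - (n : ℂ)‖ + C5 / L ^ A := add_le_add b1 hf) (A + 1)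
      refine hconv.trans ?_
      have : (q / L) ^ (A + 1) * (L / hR x0) = q ^ (A + 1) * (1 / hR x0) / L ^ A := by
        rw [div_pow, pow_succ L A]
        field_simp
      rw [this]
      have h7 : 0 ≤ (C1 + 1) * (2 / hR x0) := by positivity
      calc q ^ (A + 1) * (1 / hR x0) / L ^ A + 2 * (C5 / L ^ A)
          = (q ^ (A + 1) * (1 / hR x0) + 2 * C5) / L ^ A := by ring
        _ ≤ _ := by
            apply div_le_div_of_nonneg_right _ (by positivity)
            linarith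
    · have := hC0 _ hnB
      rwa [Complex.norm_natCast] at this

end Pool.Agent.H43.Sing
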