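import Pool.Agent.H43.Sing.Iter2
import Pool.Agent.H43.Sing.Center
import Pool.Agent.H3.Sing.Zero
import Pool.Agent.H32.Sing.Win
import Pool.Agent.H29.Sing.Loc

/-! The centre region: `O_η((log t)^η)` solutions with `log t ≤ c m`. -/

namespace Pool.Agent.H43.Sing

/-- **The centre region of Pascal's triangle**. -/
theorem center : CCenterSt := center_of (loc (win iter) (zero iter))

end Pool.Agent.H43.Sing
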