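import Mathlib

/-!
The functions `x^i / h(x)^(i+j)`, `h` the binary entropy, are linearly independent on every interval.
-/

namespace Pool.Agent.H43.Sing

open Filter Topology

/-- binary entropy -/
noncomputable def hR (x : ℝ) : ℝ := -(x * Real.log x) - (1 - x) * Real.log (1 - x)

lemma hR_pos {x : ℝ} (h0 : 0 < x) (h1 : x < 1) : 0 < hR x := by
  have h2 : Real.log x < 0 := Real.log_neg h0 h1
  have h3 : Real.log (1 - x) < 0 := Real.log_neg (by linarith) (by linarith)
  rw [hR]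
  nlinarith

/-- `λ(x) = h(x)/x` -/
lemma lam_ge {x : ℝ} (h0 : 0 < x) (h1 : x < 1) : -Real.log x ≤ hR x / x := by
  have h3 : Real.log (1 - x) < 0 := Real.log_neg (by linarith) (by linarith)
  rw [le_div_iff₀ h0, hR]
  nlinarith

lemma lam_le {x : ℝ} (h0 : 0 < x) (h1 : x < 1) : hR x / x ≤ 1 - Real.log x := by
  have h2 : 1 - (1 - x)⁻¹ ≤ Real.log (1 - x) := Real.one_sub_inv_le_log_of_pos (by linarith)
  have h3 : (1 - x) * (1 - (1 - x)⁻¹) ≤ (1 - x) * Real.log (1 - x) :=
    mul_le_mul_of_nonneg_left h2 (by linarith)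
  have h4 : (1 - x) * (1 - (1 - x)⁻¹) = -x := by
    have : (1 - x) ≠ 0 := by linarith
    field_simp
    ring
  rw [div_le_iff₀ h0, hR]
  nlinarith

lemma x_le {x : ℝ} (h0 : 0 < x) (h1 : x < 1) : x ≤ Real.exp 1 / Real.exp (hR x / x) := by
  rw [← Real.exp_sub]
  have := lam_le h0 h1
  calc x = Real.exp (Real.log x) := (Real.exp_log h0).symm
    _ ≤ Real.exp (1 - hR x / x) := Real.exp_le_exp.2 (by linarith)

lemma lam_tendsto : Tendsto (fun x : ℝ => hR x / x) (𝓝[>] 0) atTop := by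
  have h1 : Tendsto (fun x : ℝ => -Real.log x) (𝓝[>] 0) atTop :=
    tendsto_neg_atBot_atTop.comp Real.tendsto_log_nhdsGT_zero
  apply tendsto_atTop_mono' _ _ h1
  have : Set.Ioo (0 : ℝ) 1 ∈ 𝓝[>] (0 : ℝ) := Ioo_mem_nhdsGT one_pos
  filter_upwards [this] with x hx
  exact lam_ge hx.1 hx.2

/-- the test functions -/
noncomputable def gq (I : ℕ) (q : Fin I × Fin I → ℝ) (x : ℝ) : ℝ :=
  ∑ p : Fin I × Fin I, q p * (x ^ (p.1 : ℕ) * (1 / hR x) ^ ((p.1 : ℕ) + (p.2 : ℕ)))

lemma gq_zero_imp (I : ℕ) (q : Fin I × Fin I → ℝ) (h : ∀ x ∈ Set.Ioo (0 : ℝ) 1, gq I q x = 0) :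
    q = 0 := by
  classical
  by_contra hq
  obtain ⟨p1, hp1⟩ : ∃ p, q p ≠ 0 := by
    by_contra hcon
    push Not at hcon
    exact hq (funext hcon)
  obtain ⟨p0, hp0, hmax⟩ := Finset.exists_max_image (Finset.univ.filter fun p => q p ≠ 0)
    (fun p => (p.2 : ℕ)) ⟨p1, by simp [hp1]⟩
  have hp0' : q p0 ≠ 0 := by simpa using hp0
  have hmax' : ∀ p, q p ≠ 0 → (p.2 : ℕ) ≤ (p0.2 : ℕ) := fun p hp => hmax p (by simp [hp])
  set J : ℕ := (p0.2 : ℕ) with hJ
  have hJI : J < I := p0.2.2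
  set PA : Polynomial ℝ := ∑ p ∈ Finset.univ.filter (fun p : Fin I × Fin I => (p.2 : ℕ) = J),
    Polynomial.C (q p) * Polynomial.X ^ (2 * I - (p.1 : ℕ) - (p.2 : ℕ)) with hPA
  set PB : Polynomial ℝ := ∑ p ∈ Finset.univ.filter (fun p : Fin I × Fin I => (p.2 : ℕ) < J),
    Polynomial.C |q p| * Polynomial.X ^ (2 * I - (p.1 : ℕ) - (p.2 : ℕ)) with hPB
  -- degree of PA
  have hdeg : 0 < PA.degree := by
    have hc : PA.coeff (2 * I - (p0.1 : ℕ) - (p0.2 : ℕ)) = q p0 := by
      rw [hPA, Polynomial.finsetSum_coeff]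
      rw [Finset.sum_eq_single p0]
      · simp
      · intro p hp hne
        have hp2 : (p.2 : ℕ) = J := (Finset.mem_filter.1 hp).2
        have hp2' : p.2 = p0.2 := Fin.ext (by rw [hp2])
        have hp1' : (p.1 : ℕ) ≠ (p0.1 : ℕ) := by
          intro h1
          exact hne (Prod.ext (Fin.ext h1) hp2')
        rw [Polynomial.coeff_C_mul, Polynomial.coeff_X_pow, if_neg, mul_zero]
        have := p.1.2
        have := p0.1.2
        omega
      · intro hn
        exfalso; apply hn; simp [hJ]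
    have h1 : 2 * I - (p0.1 : ℕ) - (p0.2 : ℕ) ≤ PA.natDegree :=
      Polynomial.le_natDegree_of_ne_zero (by rw [hc]; exact hp0')
    have h2 := p0.1.2
    rw [← Polynomial.natDegree_pos_iff_degree_pos]
    omega
  have hA : Tendsto (fun x : ℝ => |PA.eval (hR x / x)|) (𝓝[>] 0) atTop :=
    (Polynomial.abs_tendsto_atTop PA hdeg).comp lam_tendsto
  have hB : Tendsto (fun x : ℝ => Real.exp 1 * (PB.eval (hR x / x) / Real.exp (hR x / x)))
      (𝓝[>] 0) (𝓝 (Real.exp 1 * 0)) :=
    ((Polynomial.tendsto_div_exp_atTop PB).comp lam_tendsto).const_mul _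
  rw [mul_zero] at hB
  have hle : ∀ x ∈ Set.Ioo (0 : ℝ) 1, |PA.eval (hR x / x)|
      ≤ Real.exp 1 * (PB.eval (hR x / x) / Real.exp (hR x / x)) := by
    intro x hx
    have hx0 := hx.1
    have hx1 := hx.2
    have hh := hR_pos hx0 hx1
    set l := hR x / x with hl
    have hl0 : 0 < l := by positivity
    have hhl : hR x = x * l := by rw [hl]; field_simp
    have h1 : ∑ p : Fin I × Fin I, q p * (x ^ (J - (p.2 : ℕ)) * l ^ (2 * I - (p.1 : ℕ) - (p.2 : ℕ)))
        = 0 := by
      have h2 : gq I q x * (hR x ^ (2 * I) / x ^ (2 * I - J)) = 0 := by rw [h x hx, zero_mul]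
      rw [gq, Finset.sum_mul] at h2
      rw [← h2]
      apply Finset.sum_congr rfl
      intro p _
      by_cases hqp : q p = 0
      · rw [hqp]; ring
      · have hpJ := hmax' p hqp
        have hp1 := p.1.2
        have hp2 := p.2.2
        rw [hhl]
        generalize (p.1 : ℕ) = i at *
        generalize (p.2 : ℕ) = j at *
        obtain ⟨a, ha⟩ : ∃ a, J = j + a := ⟨J - j, by omega⟩
        rw [ha] at hJI ⊢
        obtain ⟨b, hb⟩ : ∃ b, 2 * I = i + (j + a) + b := ⟨2 * I - i - (j + a), by omega⟩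
        have e1 : 2 * I - (j + a) = i + b := by omega
        have e2 : 2 * I - i - j = a + b := by omega
        have e3 : j + a - j = a := by omega
        rw [e1, e2, e3, hb]
        have hxl : x * l ≠ 0 := by positivity
        have hxi : x ^ (i + b) ≠ 0 := by positivity
        have e4 : (x * l) ^ (i + (j + a) + b) = (x * l) ^ (i + j) * (x * l) ^ (a + b) := by
          rw [← pow_add]; congr 1; omega
        rw [e4, one_div, inv_pow]
        have hy : (x * l) ^ (i + j) ≠ 0 := pow_ne_zero _ hxl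
        rw [mul_pow x l (a + b)]
        generalize (x * l) ^ (i + j) = y at hy
        rw [pow_add x i b] at hxi ⊢
        rw [pow_add x a b]
        have hx0' : x ≠ 0 := hx0.ne'
        field_simp
    have h2 : PA.eval l = -∑ p ∈ Finset.univ.filter (fun p : Fin I × Fin I => (p.2 : ℕ) < J),
        q p * (x ^ (J - (p.2 : ℕ)) * l ^ (2 * I - (p.1 : ℕ) - (p.2 : ℕ))) := by
      have h3 : PA.eval l = ∑ p ∈ Finset.univ.filter (fun p : Fin I × Fin I => (p.2 : ℕ) = J),
          q p * (x ^ (J - (p.2 : ℕ)) * l ^ (2 * I - (p.1 : ℕ) - (p.2 : ℕ))) := by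
        rw [hPA, Polynomial.eval_finsetSum]
        apply Finset.sum_congr rfl
        intro p hp
        rw [(Finset.mem_filter.1 hp).2]
        simp
      have h4 : ∑ p ∈ Finset.univ.filter (fun p : Fin I × Fin I => J < (p.2 : ℕ)),
          q p * (x ^ (J - (p.2 : ℕ)) * l ^ (2 * I - (p.1 : ℕ) - (p.2 : ℕ))) = 0 := by
        apply Finset.sum_eq_zero
        intro p hp
        have hp' := (Finset.mem_filter.1 hp).2
        have : q p = 0 := by
          by_contra hne
          have := hmax' p hne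
          omega
        rw [this, zero_mul]
      have h5 : ∑ p : Fin I × Fin I, q p * (x ^ (J - (p.2 : ℕ)) * l ^ (2 * I - (p.1 : ℕ) - (p.2 : ℕ)))
          = ∑ p ∈ Finset.univ.filter (fun p : Fin I × Fin I => (p.2 : ℕ) = J),
              q p * (x ^ (J - (p.2 : ℕ)) * l ^ (2 * I - (p.1 : ℕ) - (p.2 : ℕ)))
            + (∑ p ∈ Finset.univ.filter (fun p : Fin I × Fin I => (p.2 : ℕ) < J),
              q p * (x ^ (J - (p.2 : ℕ)) * l ^ (2 * I - (p.1 : ℕ) - (p.2 : ℕ)))
            + ∑ p ∈ Finset.univ.filter (fun p : Fin I × Fin I => J < (p.2 : ℕ)),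
              q p * (x ^ (J - (p.2 : ℕ)) * l ^ (2 * I - (p.1 : ℕ) - (p.2 : ℕ)))) := by
        rw [← Finset.sum_filter_add_sum_filter_not Finset.univ (fun p : Fin I × Fin I => (p.2 : ℕ) = J)]
        congr 1
        rw [← Finset.sum_union]
        · apply Finset.sum_congr _ (fun _ _ => rfl)
          ext p
          simp only [Finset.mem_filter, Finset.mem_univ, true_and, Finset.mem_union]
          omega
        · rw [Finset.disjoint_left]
          intro p hp hp'
          have := (Finset.mem_filter.1 hp).2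
          have := (Finset.mem_filter.1 hp').2
          omega
      rw [h1, h4] at h5
      rw [h3]
      linarith
    rw [h2, abs_neg]
    have h6 : |∑ p ∈ Finset.univ.filter (fun p : Fin I × Fin I => (p.2 : ℕ) < J),
        q p * (x ^ (J - (p.2 : ℕ)) * l ^ (2 * I - (p.1 : ℕ) - (p.2 : ℕ)))| ≤ x * PB.eval l := by
      refine (Finset.abs_sum_le_sum_abs _ _).trans ?_
      rw [hPB, Polynomial.eval_finsetSum, Finset.mul_sum]
      apply Finset.sum_le_sum
      intro p hp
      have hp' := (Finset.mem_filter.1 hp).2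
      rw [abs_mul, Polynomial.eval_mul, Polynomial.eval_C, Polynomial.eval_pow, Polynomial.eval_X,
        abs_of_pos (by positivity : 0 < x ^ (J - (p.2 : ℕ)) * l ^ (2 * I - (p.1 : ℕ) - (p.2 : ℕ)))]
      have h7 : x ^ (J - (p.2 : ℕ)) ≤ x := by
        calc x ^ (J - (p.2 : ℕ)) ≤ x ^ 1 := pow_le_pow_of_le_one hx0.le hx1.le (by omega)
          _ = x := pow_one x
      calc |q p| * (x ^ (J - (p.2 : ℕ)) * l ^ (2 * I - (p.1 : ℕ) - (p.2 : ℕ)))
          ≤ |q p| * (x * l ^ (2 * I - (p.1 : ℕ) - (p.2 : ℕ))) := by gcongr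
        _ = x * (|q p| * l ^ (2 * I - (p.1 : ℕ) - (p.2 : ℕ))) := by ring
    refine h6.trans ?_
    have h8 := x_le hx0 hx1
    rw [← hl] at h8
    have h9 : 0 ≤ PB.eval l := by
      rw [hPB, Polynomial.eval_finsetSum]
      apply Finset.sum_nonneg
      intro p _
      rw [Polynomial.eval_mul, Polynomial.eval_C, Polynomial.eval_pow, Polynomial.eval_X]
      positivity
    calc x * PB.eval l ≤ Real.exp 1 / Real.exp l * PB.eval l := mul_le_mul_of_nonneg_right h8 h9
      _ = _ := by ring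
  have hmem : Set.Ioo (0 : ℝ) 1 ∈ 𝓝[>] (0 : ℝ) := Ioo_mem_nhdsGT one_pos
  have h1 : ∀ᶠ x in 𝓝[>] (0 : ℝ), 1 < |PA.eval (hR x / x)| := hA.eventually_gt_atTop 1
  have h2 : ∀ᶠ x in 𝓝[>] (0 : ℝ), Real.exp 1 * (PB.eval (hR x / x) / Real.exp (hR x / x)) < 1 :=
    hB.eventually_lt_const one_pos
  obtain ⟨x, hx1, hx2, hx3⟩ := (h1.and (h2.and hmem)).exists
  have := hle x hx3
  linarith

lemma gq_analytic (I : ℕ) (q : Fin I × Fin I → ℝ) :
    AnalyticOnNhd ℝ (gq I q) (Set.Ioo (0 : ℝ) 1) := by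
  intro x hx
  have h1 : AnalyticAt ℝ (fun x : ℝ => Real.log x) x := analyticAt_log hx.1
  have h2 : AnalyticAt ℝ (fun x : ℝ => Real.log (1 - x)) x :=
    (analyticAt_const.sub analyticAt_id).log (by have := hx.2; simp; linarith)
  have h3 : AnalyticAt ℝ hR x :=
    ((analyticAt_id.mul h1).neg).sub ((analyticAt_const.sub analyticAt_id).mul h2)
  have h4 : AnalyticAt ℝ (fun x => 1 / hR x) x :=
    analyticAt_const.div h3 (hR_pos hx.1 hx.2).ne'
  have : gq I q = fun x => ∑ p : Fin I × Fin I, q p * (x ^ (p.1 : ℕ) * (1 / hR x) ^ ((p.1 : ℕ) + (p.2 : ℕ))) := rfl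
  rw [this]
  apply Finset.analyticAt_fun_sum
  intro p _
  exact analyticAt_const.mul ((analyticAt_id.pow _).mul (h4.pow _))

lemma gq_interval (I : ℕ) (q : Fin I × Fin I → ℝ) {a b : ℝ} (ha : 0 < a) (hab : a < b) (hb : b < 1)
    (h : ∀ x ∈ Set.Icc a b, gq I q x = 0) : q = 0 := by
  apply gq_zero_imp
  have hc : (a + b) / 2 ∈ Set.Ioo (0 : ℝ) 1 := ⟨by linarith, by linarith⟩
  have hev : gq I q =ᶠ[𝓝 ((a + b) / 2)] 0 := by
    have : Set.Icc a b ∈ 𝓝 ((a + b) / 2) := Icc_mem_nhds (by linarith) (by linarith)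
    filter_upwards [this] with x hx
    exact h x hx
  have := (gq_analytic I q).eqOn_zero_of_preconnected_of_eventuallyEq_zero
    isPreconnected_Ioo hc hev
  intro x hx
  exact this hx

/-- **Quantitative independence.** -/
theorem gq_lower (I : ℕ) {a b : ℝ} (ha : 0 < a) (hab : a < b) (hb : b < 1) :
    ∃ δ : ℝ, 0 < δ ∧ ∀ q : Fin I × Fin I → ℝ, ∃ x ∈ Set.Icc a b, δ * ‖q‖ ≤ |gq I q x| := by
  have hcont : ∀ q : Fin I × Fin I → ℝ, Continuous (fun x : Set.Icc a b => gq I q x) := by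
    intro q
    have : ContinuousOn (gq I q) (Set.Icc a b) := by
      apply (gq_analytic I q).continuousOn.mono
      intro x hx
      exact ⟨lt_of_lt_of_le ha hx.1, lt_of_le_of_lt hx.2 hb⟩
    exact continuousOn_iff_continuous_domRestrict.1 this
  let T : (Fin I × Fin I → ℝ) →ₗ[ℝ] C(Set.Icc a b, ℝ) :=
    { toFun := fun q => ⟨fun x => gq I q x, hcont q⟩
      map_add' := by
        intro q r
        ext x
        simp only [gq, ContinuousMap.coe_mk, ContinuousMap.add_apply, Pi.add_apply, add_mul,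
          Finset.sum_add_distrib]
      map_smul' := by
        intro c q
        ext x
        simp only [gq, ContinuousMap.coe_mk, ContinuousMap.smul_apply, Pi.smul_apply, smul_eq_mul,
          RingHom.id_apply, Finset.mul_sum, mul_assoc] }
  have hker : LinearMap.ker T = ⊥ := by
    rw [LinearMap.ker_eq_bot']
    intro q hq
    apply gq_interval I q ha hab hb
    intro x hx
    have := congrArg (fun f : C(Set.Icc a b, ℝ) => f ⟨x, hx⟩) hq
    simpa [T] using this
  obtain ⟨K, hK, hT⟩ := LinearMap.exists_antilipschitzWith T hker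
  have : Nonempty (Set.Icc a b) := ⟨⟨a, le_rfl, hab.le⟩⟩
  refine ⟨1 / (2 * K), by positivity, ?_⟩
  intro q
  by_contra hcon
  push Not at hcon
  have hK' : (0 : ℝ) < K := hK
  have hq : ‖q‖ ≠ 0 := by
    intro h0
    have := hcon a ⟨le_rfl, hab.le⟩
    rw [h0, mul_zero] at this
    exact absurd this (not_lt.2 (abs_nonneg _))
  have hq' : 0 < ‖q‖ := lt_of_le_of_ne (norm_nonneg _) (Ne.symm hq)
  have h1 : ‖T q‖ ≤ 1 / (2 * K) * ‖q‖ := by
    rw [ContinuousMap.norm_le _ (by positivity)]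
    intro x
    exact (hcon x x.2).le
  have h2 : ‖q‖ ≤ K * ‖T q‖ := by
    have := hT.le_mul_dist q 0
    simpa using this
  have h3 : ‖q‖ ≤ K * (1 / (2 * K) * ‖q‖) := h2.trans (mul_le_mul_of_nonneg_left h1 hK'.le)
  have h4 : (K : ℝ) * (1 / (2 * K) * ‖q‖) = ‖q‖ / 2 := by field_simp
  rw [h4] at h3
  linarith

end Pool.Agent.H43.Sing
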